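import Pool.Agent.Lib.MP_9bb24e_co.V.VtxA
import Pool.Agent.Lib.MP_9bb24e_co.U.Glue

/-!
# Module Conv: conversions between `TP` and `Chn`, small chains

* `chn_iff_TP`: the list of `TP` has the form `a :: (l ++ [b])` (head and last element, `a ≠ b`).
* `Chn.mono`: trivial.
* `chn_nil`: the list `[]`: chain `[v, s]`.
* `Chn.prepend`: from the chain `s :: (l ++ [w])` to `v :: s :: (l ++ [w])` (new inner list `s :: l`):
  everything except `s` is strictly right of `v s`, so the edge `[v, s]` meets no edge of
  `l ++ [w]` (`Glue_avoid_convex` with `{z | cross v s z < 0}`), and the turn `v, s, q` is not left.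
* `sub_inst`: `GenPos` is inherited by subsets of `S`; the left condition is the hypothesis.
* `sub_vtx`: `a`, `b` are hull vertices of the instance (`vtx_of_edge_pos`).
-/

set_option autoImplicit false

namespace Pool.Agent.Lib.MP_9bb24e_co

open Finset

theorem chn_iff_TP {R : Finset (ℝ × ℝ)} {a b : ℝ × ℝ} {r : ℕ} (ha : a ∉ R) (hb : b ∉ R)
    (hab : a ≠ b) : TP (insert a (insert b R)) a b r ↔ Chn R a b r (fun _ => True) := by
  constructor
  · rintro ⟨l, h1, h2, h3, h4, h5, h6⟩
    obtain ⟨l', rfl⟩ := List.head?_eq_some_iff.1 h3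
    have hl' : l' ≠ [] := by
      rintro rfl
      simp at h4
      exact hab h4
    have h4' : l'.getLast? = some b := by
      rcases l' with _ | ⟨c, t⟩
      · exact absurd rfl hl'
      · simpa [List.getLast?_cons_cons] using h4
    obtain ⟨m, rfl⟩ := List.getLast?_eq_some_iff.1 h4'
    refine ⟨m, h1, ?_, h5, h6, fun _ _ => trivial⟩
    have hn := List.nodup_cons.1 h1
    have ham : a ∉ m := fun h => hn.1 (List.mem_append_left _ h)
    have hbm : b ∉ m := by
      intro h
      have := (List.nodup_append.1 hn.2).2.2 b h b (by simp)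
      exact this rfl
    intro x
    have hx := h2 x
    rw [List.mem_cons, List.mem_append, List.mem_singleton, mem_insert, mem_insert] at hx
    constructor
    · intro hxm
      rcases hx.1 (Or.inr (Or.inl hxm)) with rfl | rfl | h
      · exact absurd hxm ham
      · exact absurd hxm hbm
      · exact h
    · intro hxR
      rcases hx.2 (Or.inr (Or.inr hxR)) with rfl | h | rfl
      · exact absurd hxR ha
      · exact h
      · exact absurd hxR hb
  · rintro ⟨l, h1, h2, h3, h4, -⟩
    refine ⟨a :: (l ++ [b]), h1, ?_, by simp, ?_, h3, h4⟩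
    · intro x
      rw [List.mem_cons, List.mem_append, List.mem_singleton, mem_insert, mem_insert, h2]
      tauto
    · rw [← List.cons_append, List.getLast?_concat]

theorem Chn.mono {T : Finset (ℝ × ℝ)} {v w : ℝ × ℝ} {r r' : ℕ} {P P' : ℝ × ℝ → Prop}
    (h : Chn T v w r P) (hr : r ≤ r') (hP : ∀ y ∈ T, P y → P' y) : Chn T v w r' P' := by
  obtain ⟨l, h1, h2, h3, h4, h5⟩ := h
  exact ⟨l, h1, h2, h3, h4.trans hr, fun y hy => hP y ((h2 y).1 (List.mem_of_head? hy)) (h5 y hy)⟩

theorem chn_nil {v s : ℝ × ℝ} (h : v ≠ s) (P : ℝ × ℝ → Prop) : Chn ∅ v s 0 P := by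
  refine ⟨[], ?_, fun x => ?_, trivial, le_refl _, ?_⟩
  · simpa using h
  · simp
  · intro y hy
    simp at hy

/-- A chain with one inner point. -/
theorem chn_one {v s p : ℝ × ℝ} (h : cross v p s < 0) : Chn {p} v s 0 (fun y => y = p) := by
  have h1 : v ≠ p := by
    rintro rfl
    have : cross v v s = 0 := by simp only [cross]; ring
    linarith
  have h2 : v ≠ s := by
    rintro rfl
    have : cross v p v = 0 := by simp only [cross]; ring
    linarith
  have h3 : p ≠ s := by
    rintro rfl
    have : cross v p p = 0 := by simp only [cross]; ring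
    linarith
  refine ⟨[p], ?_, fun x => ?_, ⟨trivial, trivial⟩, ?_, ?_⟩
  · simp [h1, h2, h3]
  · simp
  · simp only [List.singleton_append, leftT, if_neg (not_lt.2 h.le)]
    exact le_refl _
  · intro y hy
    simpa using hy.symm

theorem Chn.prepend {T : Finset (ℝ × ℝ)} {v s w : ℝ × ℝ} {r : ℕ} {P : ℝ × ℝ → Prop}
    (h : Chn T s w r P) (hw : cross v s w < 0) (hT : ∀ q ∈ T, cross v s q < 0) :
    Chn (insert s T) v w r (fun y => y = s) := by
  obtain ⟨l, h1, h2, h3, h4, -⟩ := h
  have evv : cross v s v = 0 := by simp only [cross]; ring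
  have hvs : v ≠ s := by
    rintro rfl
    have : cross v v w = 0 := by simp only [cross]; ring
    linarith
  have hall : ∀ x ∈ l ++ [w], cross v s x < 0 := by
    intro x hx
    rcases List.mem_append.1 hx with hx | hx
    · exact hT x ((h2 x).1 hx)
    · rw [List.mem_singleton.1 hx]
      exact hw
  refine ⟨s :: l, ?_, ?_, ?_, ?_, ?_⟩
  · rw [List.cons_append, List.nodup_cons]
    refine ⟨?_, h1⟩
    rw [List.mem_cons]
    rintro (h | h)
    · exact hvs h
    · have := hall v h
      linarith
  · intro x
    rw [List.mem_cons, h2, mem_insert]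
  · have hav : AvoidE v s (l ++ [w]) := by
      refine Glue_avoid_convex v s {z : ℝ × ℝ | cross v s z < 0} ?_ ?_ _ ?_
      · intro p hp q hq x y hx hy hxy
        simp only [Set.mem_ofPred_eq] at hp hq ⊢
        have e : cross v s (x • p + y • q) = x * cross v s p + y * cross v s q := by
          have hx' : x = 1 - y := by linarith
          subst hx'
          simp only [cross, Prod.fst_add, Prod.snd_add, Prod.smul_fst, Prod.smul_snd,
            smul_eq_mul]
          ring
        rw [e]
        rcases eq_or_lt_of_le hx with h0 | h0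
        · have hy1 : y = 1 := by linarith
          rw [← h0, hy1]
          linarith
        · have := mul_neg_of_pos_of_neg h0 hp
          have := mul_nonpos_of_nonneg_of_nonpos hy hq.le
          linarith
      · rintro z ⟨x, y, hx, hy, hxy, rfl⟩ hz
        simp only [Set.mem_ofPred_eq] at hz
        have e : cross v s (x • v + y • s) = 0 := by
          have hx' : x = 1 - y := by linarith
          subst hx'
          simp only [cross, Prod.fst_add, Prod.snd_add, Prod.smul_fst, Prod.smul_snd,
            smul_eq_mul]
          ring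
        linarith
      · intro x hx
        exact hall x hx
    rw [List.cons_append]
    rcases hl : l ++ [w] with _ | ⟨c, t⟩
    · exact trivial
    · rw [hl] at hav h3
      exact ⟨hav, h3⟩
  · rw [List.cons_append]
    rcases hl : l ++ [w] with _ | ⟨c, t⟩
    · exact Nat.zero_le _
    · rw [hl] at h4 hall
      have hc := hall c List.mem_cons_self
      have e : leftT (v :: s :: c :: t) = (if 0 < cross v s c then 1 else 0) +
        leftT (s :: c :: t) := rfl
      rw [e, if_neg (not_lt.2 hc.le), zero_add]
      exact h4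
  · intro y hy
    simpa using hy.symm

theorem sub_inst {S R : Finset (ℝ × ℝ)} {a b : ℝ × ℝ} (hS : GenPos S) (hR : R ⊆ S) (ha : a ∈ S)
    (hb : b ∈ S) (hab : a ≠ b) (h : ∀ q ∈ R, 0 < cross a b q) :
    Inst (insert a (insert b R)) a b := by
  have hsub : ∀ x ∈ insert a (insert b R), x ∈ S := by
    intro x hx
    rcases mem_insert.1 hx with rfl | hx
    · exact ha
    · rcases mem_insert.1 hx with rfl | hx
      · exact hb
      · exact hR hx
  refine ⟨fun x hx y hy z hz => hS x (hsub x hx) y (hsub y hy) z (hsub z hz), by simp, by simp,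
    hab, ?_⟩
  intro p hp hpa hpb
  rcases mem_insert.1 hp with h' | hp
  · exact absurd h' hpa
  · rcases mem_insert.1 hp with h' | hp
    · exact absurd h' hpb
    · exact h p hp

theorem sub_vtx {R : Finset (ℝ × ℝ)} {a b : ℝ × ℝ} (hab : a ≠ b) (h : ∀ q ∈ R, 0 < cross a b q) :
    Vtx (insert a (insert b R)) a ∧ Vtx (insert a (insert b R)) b := by
  refine vtx_of_edge_pos (by simp) (by simp) hab ?_
  intro q hq hqa hqb
  rcases mem_insert.1 hq with h' | hq
  · exact absurd h' hqa
  · rcases mem_insert.1 hq with h' | hq
    · exact absurd h' hqb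
    · exact h q hq

/-- The first point in the rotation about `a` is a hull vertex. -/
theorem sub_vtx_first {R : Finset (ℝ × ℝ)} {a b y : ℝ × ℝ} (h : ∀ q ∈ R, 0 < cross a b q)
    (hy : y ∈ R) (hf : ∀ q ∈ R, q ≠ y → cross a y q < 0) : Vtx (insert a (insert b R)) y := by
  have hay : a ≠ y := by
    rintro rfl
    have h1 := h a hy
    have : cross a b a = 0 := by simp only [cross]; ring
    linarith
  refine (vtx_of_edge_neg (a := a) (by simp) (by simp [hy]) hay ?_).2
  intro q hq hqa hqy
  rcases mem_insert.1 hq with h' | hq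
  · exact absurd h' hqa
  · rcases mem_insert.1 hq with rfl | hq
    · have h1 := h y hy
      have e : cross a y q = - cross a q y := by simp only [cross]; ring
      rw [e]
      linarith
    · exact hf q hq hqy

/-- The last point in the rotation about `s` is a hull vertex of `W ∪ {s}`. -/
theorem vtx_last {W : Finset (ℝ × ℝ)} {s t : ℝ × ℝ} (hs : s ∉ W) (ht : t ∈ W)
    (hl : ∀ q ∈ W, q ≠ t → cross s q t < 0) : Vtx (insert s W) t := by
  have hst : s ≠ t := by
    rintro rfl
    exact hs ht
  refine (vtx_of_edge_pos (a := s) (by simp) (by simp [ht]) hst ?_).2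
  intro q hq hqs hqt
  rcases mem_insert.1 hq with h' | hq
  · exact absurd h' hqs
  · have h1 := hl q hq hqt
    have e : cross s t q = - cross s q t := by simp only [cross]; ring
    rw [e]
    linarith

end Pool.Agent.Lib.MP_9bb24e_co
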