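import Pool.Agent.Lib.MP_9bb24e_co.U.Defs

/-!
# Reflexivity at most two fifths: notions

The proof is written in REFLEX25.md. `cross a b c > 0` means that `c` is to the left of the line
from `a` to `b`. Picture: `v` is far below and `w` far to the right.
-/

set_option autoImplicit false

namespace Pool.Agent.Lib.MP_9bb24e_co

open Finset

/-- `p` is a vertex of the convex hull of `S`: strict maximum of a linear functional. -/
def Vtx (S : Finset (ℝ × ℝ)) (p : ℝ × ℝ) : Prop :=
  p ∈ S ∧ ∃ a b : ℝ, ∀ q ∈ S, q ≠ p → a * q.1 + b * q.2 < a * p.1 + b * p.2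

open Classical in
/-- Number of hull vertices. -/
noncomputable def hullN (S : Finset (ℝ × ℝ)) : ℕ := (S.filter fun p => Vtx S p).card

open Classical in
/-- Number of points that are not hull vertices. -/
noncomputable def inN (S : Finset (ℝ × ℝ)) : ℕ := (S.filter fun p => ¬ Vtx S p).card

/-- A simple chain from `v` to `w` whose inner vertices are exactly the points of `T`, with at most
`r` left turns, and whose second vertex (if `T` is not empty) satisfies `P`. -/
def Chn (T : Finset (ℝ × ℝ)) (v w : ℝ × ℝ) (r : ℕ) (P : ℝ × ℝ → Prop) : Prop :=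
  ∃ l : List (ℝ × ℝ), (v :: (l ++ [w])).Nodup ∧ (∀ x, x ∈ l ↔ x ∈ T) ∧
    SimpleE (v :: (l ++ [w])) ∧ leftT (v :: (l ++ [w])) ≤ r ∧ ∀ y, l.head? = some y → P y

/-- `s` is the lowest point of the instance `S, v, w`: no point is nearer to the line `w v` in the
rotation about `w`. -/
structure Low (S : Finset (ℝ × ℝ)) (v w s : ℝ × ℝ) : Prop where
  inst : Inst S v w
  mem : s ∈ S
  nev : s ≠ v
  new : s ≠ w
  low : ∀ q ∈ S, q ≠ s → q ≠ v → q ≠ w → 0 < cross s w q

/-- The leftmost point `g`: all other points are to the right of `v g`. -/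
structure Lft (S : Finset (ℝ × ℝ)) (v w s g : ℝ × ℝ) : Prop where
  mem : g ∈ S
  nev : g ≠ v
  new : g ≠ w
  nes : g ≠ s
  lft : ∀ q ∈ S, q ≠ v → q ≠ g → cross v g q < 0

end Pool.Agent.Lib.MP_9bb24e_co
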