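import Pool.Agent.Lib.MP_9bb24e_co.V.Defs

/-!
# Module VtxA: vertices of the convex hull

* `Vtx.mono`: the same functional.
* `vtx_of_edge_neg` (an edge `a b` with everything to the right): for `b` use the functional
  `q ↦ cross a b q + ε * ((q.1 - b.1) * (b.1 - a.1) + (q.2 - b.2) * (b.2 - a.2))`: it is `0` at `b`,
  `- ε * |b - a|^2 < 0` at `a`, and negative at the other points of the finite set `S` if `ε > 0` is
  small (take `ε = δ / (1 + M)` where `δ` is the minimum of `- cross a b q` and `M` the maximum of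
  the absolute values of the second bracket over the other points; or prove by induction on the
  finset that such an `ε` exists). For `a` use `- ε` (that is `cross a b q - ε * ⟨q - a, b - a⟩`).
  Both are affine in `q`, so of the form `A * q.1 + B * q.2 + C`.
* `vtx_of_edge_pos`: apply the negative case to `b, a` (`cross b a q = - cross a b q`).
* `not_vtx_of_triangle`: with `α = cross y z p`, `β = cross z x p`, `γ = cross x y p` (all positive)
  one has `(α + β + γ) • p = α • x + β • y + γ • z` (ring identities in both coordinates, with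
  `α + β + γ = cross x y z`), so a linear functional at `p` is a weighted mean of its values at
  `x, y, z`, which are all smaller (`p ≠ x` because `cross x y x = 0` and so on).
-/

set_option autoImplicit false

namespace Pool.Agent.Lib.MP_9bb24e_co

open Finset

theorem Vtx.mono {S S' : Finset (ℝ × ℝ)} {p : ℝ × ℝ} (h : Vtx S p) (hs : S' ⊆ S) (hp : p ∈ S') :
    Vtx S' p := by
  obtain ⟨_, a, b, hab⟩ := h
  exact ⟨hp, a, b, fun q hq hne => hab q (hs hq) hne⟩

/-- For finitely many points with `f < 0` there is `ε > 0` with `f + ε g < 0` and `f - ε g < 0`. -/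
private theorem vtxA_eps (S : Finset (ℝ × ℝ)) (f g : ℝ × ℝ → ℝ) (h : ∀ q ∈ S, f q < 0) :
    ∃ ε : ℝ, 0 < ε ∧ ∀ q ∈ S, f q + ε * |g q| < 0 := by
  classical
  induction S using Finset.induction_on with
  | empty => exact ⟨1, one_pos, fun q hq => absurd hq (Finset.notMem_empty q)⟩
  | insert x s hx ih =>
    obtain ⟨ε, hε, hq⟩ := ih fun q hq => h q (Finset.mem_insert_of_mem hq)
    have hfx := h x (Finset.mem_insert_self x s)
    have hpos : 0 < 1 + |g x| := by positivity
    refine ⟨min ε (-(f x) / (1 + |g x|)), lt_min hε (div_pos (by linarith) hpos), ?_⟩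
    intro q hq'
    rcases Finset.mem_insert.mp hq' with rfl | hq'
    · have h1 : min ε (-(f q) / (1 + |g q|)) ≤ -(f q) / (1 + |g q|) := min_le_right _ _
      have h2 : min ε (-(f q) / (1 + |g q|)) * |g q| ≤ -(f q) / (1 + |g q|) * |g q| :=
        mul_le_mul_of_nonneg_right h1 (abs_nonneg _)
      have h3 : -(f q) / (1 + |g q|) * |g q| < -(f q) := by
        rw [div_mul_eq_mul_div, div_lt_iff₀ hpos]
        nlinarith
      linarith
    · have h1 : min ε (-(f x) / (1 + |g x|)) ≤ ε := min_le_left _ _
      have h2 : min ε (-(f x) / (1 + |g x|)) * |g q| ≤ ε * |g q| :=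
        mul_le_mul_of_nonneg_right h1 (abs_nonneg _)
      have := hq q hq'
      linarith

/-- Both ends of an edge with everything on its right are hull vertices. -/
theorem vtx_of_edge_neg {S : Finset (ℝ × ℝ)} {a b : ℝ × ℝ} (ha : a ∈ S) (hb : b ∈ S) (hab : a ≠ b)
    (h : ∀ q ∈ S, q ≠ a → q ≠ b → cross a b q < 0) : Vtx S a ∧ Vtx S b := by
  classical
  have hN : 0 < (b.1 - a.1) ^ 2 + (b.2 - a.2) ^ 2 := by
    by_contra hcon
    have h1 : (b.1 - a.1) ^ 2 = 0 := by nlinarith [sq_nonneg (b.1 - a.1), sq_nonneg (b.2 - a.2)]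
    have h2 : (b.2 - a.2) ^ 2 = 0 := by nlinarith [sq_nonneg (b.1 - a.1), sq_nonneg (b.2 - a.2)]
    have h3 : b.1 - a.1 = 0 := by simpa using h1
    have h4 : b.2 - a.2 = 0 := by simpa using h2
    exact hab (Prod.ext (by linarith) (by linarith))
  set S' := (S.erase a).erase b with hS'
  constructor
  · obtain ⟨ε, hε, hq⟩ := vtxA_eps S' (fun q => cross a b q)
      (fun q => (q.1 - a.1) * (b.1 - a.1) + (q.2 - a.2) * (b.2 - a.2)) (by
        intro q hq
        rw [hS', Finset.mem_erase, Finset.mem_erase] at hq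
        exact h q hq.2.2 hq.2.1 hq.1)
    refine ⟨ha, -(b.2 - a.2) - ε * (b.1 - a.1), (b.1 - a.1) - ε * (b.2 - a.2), ?_⟩
    intro q hqS hqa
    by_cases hqb : q = b
    · rw [hqb]
      nlinarith [mul_pos hε hN]
    · have h1 := hq q (by
        rw [hS', Finset.mem_erase, Finset.mem_erase]
        exact ⟨hqb, hqa, hqS⟩)
      have h2 : -(ε * ((q.1 - a.1) * (b.1 - a.1) + (q.2 - a.2) * (b.2 - a.2))) ≤
          ε * |(q.1 - a.1) * (b.1 - a.1) + (q.2 - a.2) * (b.2 - a.2)| := by
        rw [← mul_neg]
        exact mul_le_mul_of_nonneg_left (neg_le_abs _) hε.le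
      simp only [cross] at h1
      nlinarith
  · obtain ⟨ε, hε, hq⟩ := vtxA_eps S' (fun q => cross a b q)
      (fun q => (q.1 - b.1) * (b.1 - a.1) + (q.2 - b.2) * (b.2 - a.2)) (by
        intro q hq
        rw [hS', Finset.mem_erase, Finset.mem_erase] at hq
        exact h q hq.2.2 hq.2.1 hq.1)
    refine ⟨hb, -(b.2 - a.2) + ε * (b.1 - a.1), (b.1 - a.1) + ε * (b.2 - a.2), ?_⟩
    intro q hqS hqb
    by_cases hqa : q = a
    · rw [hqa]
      nlinarith [mul_pos hε hN]
    · have h1 := hq q (by
        rw [hS', Finset.mem_erase, Finset.mem_erase]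
        exact ⟨hqb, hqa, hqS⟩)
      have h2 : ε * ((q.1 - b.1) * (b.1 - a.1) + (q.2 - b.2) * (b.2 - a.2)) ≤
          ε * |(q.1 - b.1) * (b.1 - a.1) + (q.2 - b.2) * (b.2 - a.2)| :=
        mul_le_mul_of_nonneg_left (le_abs_self _) hε.le
      simp only [cross] at h1
      nlinarith

/-- Both ends of an edge with everything on its left are hull vertices. -/
theorem vtx_of_edge_pos {S : Finset (ℝ × ℝ)} {a b : ℝ × ℝ} (ha : a ∈ S) (hb : b ∈ S) (hab : a ≠ b)
    (h : ∀ q ∈ S, q ≠ a → q ≠ b → 0 < cross a b q) : Vtx S a ∧ Vtx S b := by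
  have := vtx_of_edge_neg hb ha hab.symm (fun q hq hqb hqa => by
    have h1 := h q hq hqa hqb
    simp only [cross] at h1 ⊢
    linarith)
  exact ⟨this.2, this.1⟩

/-- A point inside a triangle is not a hull vertex. -/
theorem not_vtx_of_triangle {S : Finset (ℝ × ℝ)} {x y z p : ℝ × ℝ} (hx : x ∈ S) (hy : y ∈ S)
    (hz : z ∈ S) (h1 : 0 < cross x y p) (h2 : 0 < cross y z p) (h3 : 0 < cross z x p) :
    ¬ Vtx S p := by
  rintro ⟨_, a, b, hab⟩
  have hpx : x ≠ p := by
    rintro rfl
    simp only [cross] at h1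
    linarith
  have hpy : y ≠ p := by
    rintro rfl
    simp only [cross] at h1
    linarith
  have hpz : z ≠ p := by
    rintro rfl
    simp only [cross] at h2
    linarith
  have e1 := hab x hx hpx
  have e2 := hab y hy hpy
  have e3 := hab z hz hpz
  have m1 := mul_lt_mul_of_pos_left e1 h2
  have m2 := mul_lt_mul_of_pos_left e2 h3
  have m3 := mul_lt_mul_of_pos_left e3 h1
  have key : cross y z p * (a * x.1 + b * x.2) + cross z x p * (a * y.1 + b * y.2) +
      cross x y p * (a * z.1 + b * z.2) =
      (cross y z p + cross z x p + cross x y p) * (a * p.1 + b * p.2) := by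
    simp only [cross]
    ring
  nlinarith

/-- A point inside a triangle is not a hull vertex (clockwise triangle). -/
theorem not_vtx_of_triangle_neg {S : Finset (ℝ × ℝ)} {x y z p : ℝ × ℝ} (hx : x ∈ S) (hy : y ∈ S)
    (hz : z ∈ S) (h1 : cross x y p < 0) (h2 : cross y z p < 0) (h3 : cross z x p < 0) :
    ¬ Vtx S p := by
  apply not_vtx_of_triangle (x := y) (y := x) (z := z) hy hx hz
  · simp only [cross] at h1 ⊢
    linarith
  · simp only [cross] at h3 ⊢
    linarith
  · simp only [cross] at h2 ⊢
    linarith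

end Pool.Agent.Lib.MP_9bb24e_co
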