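import Pool.Agent.Lib.MP_9bb24e_co.V.Rot
import Pool.Agent.Lib.MP_9bb24e_co.V.VtxA
import Pool.Agent.Lib.MP_9bb24e_co.U.Glue

/-!
# Module Fan: a convex chain

`Q` is a set of points strictly left of `a b`, all of them hull vertices of `Q ∪ {a}`; `g` is the
first one in the rotation about `a`, and everything is right of `v g`. Then the chain `v, Q (in the
order of the rotation about a), a` is simple and has no left turn.

Take the list `l` of `rot_list`. Its head is `g` (the head `x` satisfies `cross a x g < 0` if
`x ≠ g`, contradiction to `hfirst`). The chain is `v :: (l ++ [a])`.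

* Turns. At `g`: the next point (or `a`) is right of `v g`. At an inner element `q` with neighbours
  `p, r` in the list: `cross a p q < 0`, `cross a q r < 0`, `cross a p r < 0`; if `cross p q r > 0` then
  `q` is strictly inside the triangle `a, r, p` (`cross a r q > 0`, `cross r p q = cross p q r > 0`,
  `cross p a q > 0`), contradiction to `Vtx (insert a Q) q` by `not_vtx_of_triangle`. (So the turn is
  not left; equality does not matter.) At the last element `q` with predecessor `p`:
  `cross p q a = cross a p q < 0`.
* Simple. By induction on the list, for suffixes of `l`: edges `[x, y]` and `[z, t]` of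
  `l ++ [a]` with `x, y` before `z` in the list: choose the line through `a` and `y`... precisely: all
  points `u` after `y` satisfy `cross a y u < 0` and `a` satisfies `cross a y a = 0`, while on `[x, y]` one
  has `cross a y w ≥ 0` with equality only at `y` (`cross a y x > 0`). So a common point of `[x, y]` with
  a later edge that does not start in `y` lies in `{cross a y w ≤ 0}`, hence is `y`, but `y` is on no
  later nonadjacent edge: later points have `cross a y u < 0` and the only point with `0` is `a ≠ y`:
  an edge `[z, t]` with `t ≠ a` has `cross a y < 0` on it; the edge `[z, a]` has `cross a y w = 0` only at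
  `a`. The first edge `[v, g]`: all other points `u` (and `a`) have `cross v g u < 0`, and `cross v g w = 0`
  on the edge, so it meets no edge without the end `g`.
  Use `AvoidE`, `SimpleE` and `Glue_avoid_convex` of module `Glue` (convex sets given by strict
  inequalities).
* Nodup: `a ∉ Q` (`cross a b a = 0`), `v ∉ Q` and `v ≠ a`: `cross v g v = 0` and `hleft`, `hva`
  (`v ≠ g` because `cross g g a = 0`).
-/

set_option autoImplicit false

namespace Pool.Agent.Lib.MP_9bb24e_co

open Finset

private theorem fan_cross_aff (p q : ℝ × ℝ) (z : ℝ × ℝ) :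
    cross p q z = (-(q.2 - p.2)) * z.1 + (q.1 - p.1) * z.2 -
      ((-(q.2 - p.2)) * p.1 + (q.1 - p.1) * p.2) := by
  simp only [cross]
  ring

private theorem fan_cross_comb (p q x y : ℝ × ℝ) (u v : ℝ) (huv : u + v = 1) :
    cross p q (u • x + v • y) = u * cross p q x + v * cross p q y := by
  have hu : u = 1 - v := by linarith
  subst hu
  simp only [cross, Prod.fst_add, Prod.snd_add, Prod.smul_fst, Prod.smul_snd, smul_eq_mul]
  ring

/-- The open half plane to the right of `p q` together with one point of the line is convex. -/
private theorem fan_convex (p q a : ℝ × ℝ) (ha : cross p q a = 0) :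
    Convex ℝ {z : ℝ × ℝ | cross p q z < 0 ∨ z = a} := by
  intro x hx y hy u v hu hv huv
  rw [Set.mem_ofPred_eq] at hx hy ⊢
  rw [fan_cross_comb p q x y u v huv]
  rcases hx with hx | rfl
  · rcases eq_or_lt_of_le hu with h | h
    · have hv1 : v = 1 := by linarith
      subst hv1
      rw [← h]
      rcases hy with hy | rfl
      · left
        linarith
      · right
        rw [zero_smul, zero_add, one_smul]
    · left
      rcases hy with hy | rfl
      · nlinarith [mul_neg_of_pos_of_neg h hx, mul_nonneg hv (neg_nonneg.2 hy.le)]
      · rw [ha, mul_zero, add_zero]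
        exact mul_neg_of_pos_of_neg h hx
  · rcases hy with hy | rfl
    · rcases eq_or_lt_of_le hv with h | h
      · have hu1 : u = 1 := by linarith
        subst hu1
        rw [← h]
        right
        rw [zero_smul, add_zero, one_smul]
      · left
        rw [ha, mul_zero, zero_add]
        exact mul_neg_of_pos_of_neg h hy
    · right
      rw [← add_smul, huv, one_smul]

private theorem fan_avoid (a x y : ℝ × ℝ) (l : List (ℝ × ℝ)) (hxy : cross a x y < 0)
    (hl : ∀ u ∈ l, cross a y u < 0) : AvoidE x y (l ++ [a]) := by
  have hx : 0 < cross a y x := by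
    have : cross a y x = - cross a x y := by simp only [cross]; ring
    rw [this]
    linarith
  have hay : y ≠ a := by
    rintro rfl
    have : cross y x y = 0 := by simp only [cross]; ring
    linarith
  have haa : cross a y a = 0 := by simp only [cross]; ring
  have hyy : cross a y y = 0 := by simp only [cross]; ring
  refine Glue_avoid_convex x y _ (fan_convex a y a haa) ?_ _ ?_
  · intro z hz hz'
    rw [Set.mem_ofPred_eq] at hz'
    obtain ⟨u, v, hu, hv, huv, rfl⟩ := hz
    have e := fan_cross_comb a y x y u v huv
    rw [hyy, mul_zero, add_zero] at e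
    rcases hz' with h | h
    · rw [e] at h
      nlinarith [mul_nonneg hu hx.le]
    · rw [h, haa] at e
      have hu0 : u = 0 := by
        rcases mul_eq_zero.1 e.symm with h1 | h1
        · exact h1
        · exact absurd h1 hx.ne'
      have hv1 : v = 1 := by linarith
      rw [hu0, hv1, zero_smul, zero_add, one_smul] at h
      exact hay h
  · intro u hu
    rw [Set.mem_ofPred_eq]
    rcases List.mem_append.1 hu with h | h
    · exact Or.inl (hl u h)
    · exact Or.inr (List.mem_singleton.1 h)

private theorem fan_simple (a : ℝ × ℝ) (l : List (ℝ × ℝ))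
    (hl : l.Pairwise (fun p q => cross a p q < 0)) : SimpleE (l ++ [a]) := by
  induction l with
  | nil => exact trivial
  | cons x l ih =>
    rw [List.pairwise_cons] at hl
    have ih' := ih hl.2
    rcases l with _ | ⟨y, l⟩
    · exact trivial
    · have hxy := hl.1 y List.mem_cons_self
      have hy := (List.pairwise_cons.1 hl.2).1
      have hav := fan_avoid a x y l hxy hy
      rcases l with _ | ⟨z, l⟩
      · exact ⟨hav, ih'⟩
      · exact ⟨hav, ih'⟩

private theorem fan_left (a : ℝ × ℝ) (S : Finset (ℝ × ℝ)) (ha : a ∈ S) (l : List (ℝ × ℝ))
    (hl : l.Pairwise (fun p q => cross a p q < 0)) (hS : ∀ q ∈ l, Vtx S q) :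
    leftT (l ++ [a]) = 0 := by
  induction l with
  | nil => rfl
  | cons x l ih =>
    rw [List.pairwise_cons] at hl
    have ih' := ih hl.2 (fun q hq => hS q (List.mem_cons_of_mem _ hq))
    rcases l with _ | ⟨y, l⟩
    · rfl
    · have hxy := hl.1 y List.mem_cons_self
      rcases l with _ | ⟨z, l⟩
      · have hn : ¬ 0 < cross x y a := by
          have : cross x y a = cross a x y := by simp only [cross]; ring
          rw [this]
          exact not_lt.2 hxy.le
        have e := Glue_leftT_cons x y a [] hn
        exact e.trans ih'
      · have hxz := hl.1 z (List.mem_cons_of_mem _ List.mem_cons_self)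
        have hyz := (List.pairwise_cons.1 hl.2).1 z List.mem_cons_self
        have hn : ¬ 0 < cross x y z := by
          intro hpos
          have hx := (hS x List.mem_cons_self).1
          have hz := (hS z (List.mem_cons_of_mem _ (List.mem_cons_of_mem _ List.mem_cons_self))).1
          refine not_vtx_of_triangle (x := a) (y := z) (z := x) (p := y) ha hz hx ?_ ?_ ?_
            (hS y (List.mem_cons_of_mem _ List.mem_cons_self))
          · have : cross a z y = - cross a y z := by simp only [cross]; ring
            rw [this]
            linarith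
          · have : cross z x y = cross x y z := by simp only [cross]; ring
            rw [this]
            exact hpos
          · have : cross x a y = - cross a x y := by simp only [cross]; ring
            rw [this]
            linarith
        have e := Glue_leftT_cons x y z (l ++ [a]) hn
        exact e.trans ih'

theorem fan {Q : Finset (ℝ × ℝ)} {v a b g : ℝ × ℝ} (hQ : ∀ q ∈ Q, 0 < cross a b q)
    (hgp : ∀ p ∈ Q, ∀ q ∈ Q, p ≠ q → cross a p q ≠ 0)
    (hext : ∀ q ∈ Q, Vtx (insert a Q) q) (hg : g ∈ Q)
    (hfirst : ∀ q ∈ Q, q ≠ g → cross a g q < 0) (hleft : ∀ q ∈ Q, q ≠ g → cross v g q < 0)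
    (hva : cross v g a < 0) : Chn Q v a 0 (fun y => y = g) := by
  obtain ⟨l, hn, hm, hp⟩ := rot_list hQ hgp
  have haQ : a ∉ Q := by
    intro h
    have h1 := hQ a h
    have h2 : cross a b a = 0 := by simp only [cross]; ring
    linarith
  have hvg : cross v g v = 0 := by simp only [cross]; ring
  have hva' : v ≠ a := by
    rintro rfl
    linarith
  have hvg' : v ≠ g := by
    rintro rfl
    have : cross v v a = 0 := by simp only [cross]; ring
    linarith
  have hvQ : v ∉ Q := by
    intro h
    have := hleft v h hvg'
    linarith
  rcases l with _ | ⟨x, l⟩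
  · exact absurd ((hm g).2 hg) (by simp)
  have hxg : x = g := by
    by_contra hne
    have hxQ : x ∈ Q := (hm x).1 List.mem_cons_self
    have h1 := hfirst x hxQ hne
    have hgl : g ∈ l := by
      rcases List.mem_cons.1 ((hm g).2 hg) with h | h
      · exact absurd h.symm hne
      · exact h
    have h2 := (List.pairwise_cons.1 hp).1 g hgl
    have h3 : cross a x g = - cross a g x := by simp only [cross]; ring
    linarith
  subst hxg
  have hlr : ∀ u ∈ l ++ [a], cross v x u < 0 := by
    intro u hu
    rcases List.mem_append.1 hu with h | h
    · refine hleft u ((hm u).1 (List.mem_cons_of_mem _ h)) ?_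
      rintro rfl
      exact (List.nodup_cons.1 hn).1 h
    · rw [List.mem_singleton.1 h]
      exact hva
  have hvx : AvoidE v x (l ++ [a]) := by
    have hcv : Convex ℝ {z : ℝ × ℝ | cross v x z < 0} := by
      have h := Glue_convex_lt (-(x.2 - v.2)) (x.1 - v.1)
        ((-(x.2 - v.2)) * v.1 + (x.1 - v.1) * v.2)
      have e : {z : ℝ × ℝ | cross v x z < 0} = {p : ℝ × ℝ |
          -(x.2 - v.2) * p.1 + (x.1 - v.1) * p.2 < (-(x.2 - v.2)) * v.1 + (x.1 - v.1) * v.2} := by
        ext z
        rw [Set.mem_ofPred_eq, Set.mem_ofPred_eq, fan_cross_aff]
        constructor <;> intro h <;> linarith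
      rw [e]
      exact h
    refine Glue_avoid_convex v x _ hcv ?_ _ (fun u hu => hlr u hu)
    intro z hz hz'
    rw [Set.mem_ofPred_eq] at hz'
    obtain ⟨s, t, hs, ht, hst, rfl⟩ := hz
    have hxx : cross v x x = 0 := by simp only [cross]; ring
    rw [fan_cross_comb v x v x s t hst, hvg, hxx] at hz'
    linarith
  have hsim := fan_simple a (x :: l) hp
  have hlft := fan_left a (insert a Q) (Finset.mem_insert_self a Q) (x :: l) hp
    (fun q hq => hext q ((hm q).1 hq))
  refine ⟨x :: l, ?_, hm, ?_, ?_, ?_⟩
  · rw [List.nodup_cons, List.nodup_append]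
    refine ⟨?_, hn, List.nodup_singleton a, ?_⟩
    · intro h
      rcases List.mem_append.1 h with h | h
      · exact hvQ ((hm v).1 h)
      · exact hva' (List.mem_singleton.1 h)
    · intro p hp' q hq hpq
      rw [List.mem_singleton] at hq
      subst hpq
      rw [hq] at hp'
      exact haQ ((hm a).1 hp')
  · rcases l with _ | ⟨y, l⟩
    · exact ⟨hvx, hsim⟩
    · exact ⟨hvx, hsim⟩
  · rcases l with _ | ⟨y, l⟩
    · have hn' : ¬ 0 < cross v x a := not_lt.2 hva.le
      have e := Glue_leftT_cons v x a [] hn'
      exact (e.trans hlft).le
    · have hn' : ¬ 0 < cross v x y := not_lt.2 (hlr y (by simp)).le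
      have e := Glue_leftT_cons v x y (l ++ [a]) hn'
      exact (e.trans hlft).le
  · intro y hy
    simp only [List.head?_cons, Option.some.injEq] at hy
    exact hy.symm

end Pool.Agent.Lib.MP_9bb24e_co
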