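import Pool.Agent.Lib.MP_9bb24e_co.V.Rot
import Pool.Agent.Lib.MP_9bb24e_co.U.Glue

/-!
# Module Glue2: gluing two chains at the apex `s`

Data: a chain `v, l1, s` through `W` whose second vertex `y` is left of `v s`, a chain `s, l2, w`
through `U`; all points of `W ∪ U` are strictly left of `s w`, `v` is strictly right of `s w`, and in
the rotation about `s` every point of `W` is before every point of `U`. The new chain is
`v :: ((l1 ++ s :: l2) ++ [w])`.

* Nodup: `v ∉ W ∪ U` and `v ≠ w`, `v ≠ s` (sign of `cross s w`), `s, w ∉ W ∪ U`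
  (`cross s w s = cross s w w = 0`), `W` and `U` are disjoint (`cross s p p = 0`); the rest is the
  nodup of the two chains.
* Left turns: `leftT_append` of module `Glue` (`m = v :: l1`, `l = l2 ++ [w]`).
* Second vertex: it is the second vertex of the first chain, or `s` if `l1 = []`.
* Simple. Write `K = {z | 0 ≤ cross s w z}`. Let `φ` be the functional of `sep_line` (`a = s`,
  `b = w`): `φ < φ s` on `W`, `φ > φ s` on `U` and at `w`.
  First case `φ v < φ s`: `Glue_simple` with `m = v :: l1` and `l = l2 ++ [w]` gives the claim.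
  Second case `φ s ≤ φ v`. Then no `q ∈ U ∪ {w}` is strictly left of `v s`, that is
  `cross v s q ≤ 0`: for `w`: `cross v s w = cross s w v < 0`; for `q ∈ U` suppose
  `cross v s q > 0`. With `s` as origin, `X z = ⟨z - s, w - s⟩ / cross s w z` increases in the order of
  the rotation; more directly: `φ z - φ s` is affine, and
  `cross s w v * (φ q - φ s) - cross s w q * (φ v - φ s) = (φ w - φ s) * cross s v q` up to sign
  (ring identity for three vectors in the plane: `(a × b) c + (b × c) a + (c × a) b = 0` with
  `a = w - s`, `b = v - s`, `c = q - s`); the signs give a contradiction.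
  All edges of the first chain except the first one have both ends in `W ∪ {s}`, where `φ ≤ φ s` with
  equality only at `s`; this part is glued by `Glue_simple` with `m = l1` and `l = l2 ++ [w]`
  (`SimpleE (l1 ++ [s])` is the tail of the given chain). It remains that the first edge `[v, y]` does
  not meet the edges of the new chain that are not adjacent to it: those of the first chain by
  hypothesis, those of `s :: (l2 ++ [w])` because on `[v, y]` one has `cross v s z ≥ 0` with equality only
  at `v` (if `l1 ≠ []`, `cross v s y > 0`), while the points of the second chain satisfy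
  `cross v s z ≤ 0` and `cross s w z ≥ 0`, and `cross s w v < 0`. (`Glue_avoid_convex` with the convex
  set `{z | cross v s z ≤ 0} ∩ {z | 0 ≤ cross s w z}`; `cross v s z` is affine in `z`.)
  If `l1 = []` the first edge is `[v, s]`, adjacent to the first edge of the second chain, and the
  other edges `(l2 ++ [w])` lie in `{z | 0 ≤ cross s w z}`, all their end points different from `s`;
  on `[v, s]` one has `cross s w z ≤ 0` with equality only at `s`; so one needs that `s` is on no edge
  of `l2 ++ [w]`: there `φ > φ s`. (So for `l1 = []` use the convex set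
  `{z | 0 ≤ cross s w z} ∩ {z | φ s < φ z}`.)
-/

set_option autoImplicit false

namespace Pool.Agent.Lib.MP_9bb24e_co

open Finset

private lemma cross_affine (a b p q : ℝ × ℝ) (x y : ℝ) (h : x + y = 1) :
    cross a b (x • p + y • q) = x * cross a b p + y * cross a b q := by
  have hx : x = 1 - y := by linarith
  subst hx
  simp only [cross, Prod.fst_add, Prod.snd_add, Prod.smul_fst, Prod.smul_snd, smul_eq_mul]
  ring

private lemma convex_cross_nonpos (a b : ℝ × ℝ) : Convex ℝ {z : ℝ × ℝ | cross a b z ≤ 0} := by
  intro p hp q hq x y hx hy hxy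
  simp only [Set.mem_ofPred_eq] at hp hq ⊢
  rw [cross_affine a b p q x y hxy]
  nlinarith [mul_nonneg hx (neg_nonneg.2 hp), mul_nonneg hy (neg_nonneg.2 hq)]

private lemma convex_cross_nonneg (a b : ℝ × ℝ) : Convex ℝ {z : ℝ × ℝ | 0 ≤ cross a b z} := by
  intro p hp q hq x y hx hy hxy
  simp only [Set.mem_ofPred_eq] at hp hq ⊢
  rw [cross_affine a b p q x y hxy]
  nlinarith [mul_nonneg hx hp, mul_nonneg hy hq]

private lemma second_right {s w v q : ℝ × ℝ} {α β : ℝ} (hA : cross s w v < 0)
    (hC : 0 < cross s w q) (hv : α * s.1 + β * s.2 ≤ α * v.1 + β * v.2)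
    (hq : α * s.1 + β * s.2 < α * q.1 + β * q.2) (hw : α * s.1 + β * s.2 < α * w.1 + β * w.2) :
    cross v s q < 0 := by
  have key : cross s w v * (α * q.1 + β * q.2 - (α * s.1 + β * s.2)) +
      cross s v q * (α * w.1 + β * w.2 - (α * s.1 + β * s.2)) -
      cross s w q * (α * v.1 + β * v.2 - (α * s.1 + β * s.2)) = 0 := by
    simp only [cross]
    ring
  have e : cross v s q = - cross s v q := by simp only [cross]; ring
  have h1 : 0 < -cross s w v * (α * q.1 + β * q.2 - (α * s.1 + β * s.2)) :=
    mul_pos (neg_pos.2 hA) (sub_pos.2 hq)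
  have h2 : 0 ≤ cross s w q * (α * v.1 + β * v.2 - (α * s.1 + β * s.2)) :=
    mul_nonneg hC.le (sub_nonneg.2 hv)
  have h3 : 0 < cross s v q * (α * w.1 + β * w.2 - (α * s.1 + β * s.2)) := by linarith
  have h4 : 0 < cross s v q := by
    by_contra hn
    have h5 : cross s v q * (α * w.1 + β * w.2 - (α * s.1 + β * s.2)) ≤ 0 :=
      mul_nonpos_of_nonpos_of_nonneg (not_lt.1 hn) (sub_pos.2 hw).le
    linarith
  rw [e]
  linarith

private lemma simpleE_tail (a : ℝ × ℝ) (l : List (ℝ × ℝ)) (h : SimpleE (a :: l)) :
    SimpleE l := by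
  rcases l with _ | ⟨b, _ | ⟨c, t⟩⟩
  · exact trivial
  · exact trivial
  · exact h.2

private lemma simpleE_avoid (a b : ℝ × ℝ) (l : List (ℝ × ℝ)) (h : SimpleE (a :: b :: l)) :
    AvoidE a b l := by
  rcases l with _ | ⟨c, t⟩
  · exact trivial
  · exact h.1

private lemma simpleE_cons (a b : ℝ × ℝ) (l : List (ℝ × ℝ)) (h1 : AvoidE a b l)
    (h2 : SimpleE (b :: l)) : SimpleE (a :: b :: l) := by
  rcases l with _ | ⟨c, t⟩
  · exact trivial
  · exact ⟨h1, h2⟩

theorem Chn.glue {W U : Finset (ℝ × ℝ)} {v s w : ℝ × ℝ} {r1 r2 : ℕ} {P Q : ℝ × ℝ → Prop}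
    (h1 : Chn W v s r1 P) (h2 : Chn U s w r2 Q) (hP : ∀ y ∈ W, P y → 0 < cross v s y)
    (hW : ∀ q ∈ W, 0 < cross s w q) (hU : ∀ q ∈ U, 0 < cross s w q) (hv : cross s w v < 0)
    (hord : ∀ p ∈ W, ∀ q ∈ U, cross s p q < 0) :
    Chn (insert s (W ∪ U)) v w (r1 + r2 + 1) (fun y => P y ∨ y = s) := by
  obtain ⟨l1, a1, a2, a3, a4, a5⟩ := h1
  obtain ⟨l2, b1, b2, b3, b4, -⟩ := h2
  have ess : cross s w s = 0 := by simp only [cross]; ring
  have eww : cross s w w = 0 := by simp only [cross]; ring
  have hvs : v ≠ s := by
    rintro rfl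
    rw [ess] at hv
    exact lt_irrefl _ hv
  have hvw : v ≠ w := by
    rintro rfl
    rw [eww] at hv
    exact lt_irrefl _ hv
  have hsw : s ≠ w := by
    rintro rfl
    have : cross s s v = 0 := by simp only [cross]; ring
    rw [this] at hv
    exact lt_irrefl _ hv
  have hvl2 : v ∉ l2 := fun h => by
    have := hU v ((b2 v).1 h)
    linarith
  have hsl1 : s ∉ l1 := fun h => by
    have := hW s ((a2 s).1 h)
    linarith
  have hwl1 : w ∉ l1 := fun h => by
    have := hW w ((a2 w).1 h)
    linarith
  have hdis : ∀ x ∈ l1, x ∉ l2 := fun x hx hx' => by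
    have h3 := hord x ((a2 x).1 hx) x ((b2 x).1 hx')
    have h4 : cross s x x = 0 := by simp only [cross]; ring
    linarith
  have hL : v :: ((l1 ++ s :: l2) ++ [w]) = (v :: l1) ++ s :: (l2 ++ [w]) := by simp
  refine ⟨l1 ++ s :: l2, ?_, ?_, ?_, ?_, ?_⟩
  · rw [hL, List.nodup_append]
    have a1' : ((v :: l1) ++ [s]).Nodup := by simpa using a1
    refine ⟨(List.nodup_append.1 a1').1, b1, ?_⟩
    intro x hx y hy hxy
    subst hxy
    rcases List.mem_cons.1 hx with rfl | hx
    · rcases List.mem_cons.1 hy with h | hy
      · exact hvs h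
      · rcases List.mem_append.1 hy with hy | hy
        · exact hvl2 hy
        · exact hvw (List.mem_singleton.1 hy)
    · rcases List.mem_cons.1 hy with h | hy
      · exact hsl1 (h ▸ hx)
      · rcases List.mem_append.1 hy with hy | hy
        · exact hdis x hx hy
        · exact hwl1 (List.mem_singleton.1 hy ▸ hx)
  · intro x
    rw [List.mem_append, List.mem_cons, a2, b2, mem_insert, mem_union]
    tauto
  · rw [hL]
    obtain ⟨α, β, c1, c2, c3⟩ := sep_line hsw hW hU hord
    have hφ1 : ∀ x ∈ l1, α * x.1 + β * x.2 < α * s.1 + β * s.2 := fun x hx =>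
      c1 x ((a2 x).1 hx)
    have hφ2 : ∀ x ∈ l2 ++ [w], α * s.1 + β * s.2 < α * x.1 + β * x.2 := by
      intro x hx
      rcases List.mem_append.1 hx with hx | hx
      · exact c2 x ((b2 x).1 hx)
      · rw [List.mem_singleton.1 hx]
        exact c3
    rcases lt_or_ge (α * v.1 + β * v.2) (α * s.1 + β * s.2) with hlt | hge
    · refine Glue_simple α β s (v :: l1) (l2 ++ [w]) ?_ hφ2 (by simpa using a3) b3
      intro x hx
      rcases List.mem_cons.1 hx with rfl | hx
      · exact hlt
      · exact hφ1 x hx
    · have hr : ∀ q ∈ l2 ++ [w], cross v s q < 0 ∧ 0 ≤ cross s w q := by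
        intro q hq
        rcases List.mem_append.1 hq with hq | hq
        · have h3 := hU q ((b2 q).1 hq)
          exact ⟨second_right hv h3 hge (c2 q ((b2 q).1 hq)) c3, h3.le⟩
        · rw [List.mem_singleton.1 hq]
          refine ⟨?_, eww.ge⟩
          have e : cross v s w = cross s w v := by simp only [cross]; ring
          rw [e]
          exact hv
      rcases l1 with _ | ⟨y, m⟩
      · rw [List.singleton_append]
        refine simpleE_cons v s _ ?_ b3
        refine Glue_avoid_convex v s
          ({z | 0 ≤ cross s w z} ∩ {z | α * s.1 + β * s.2 < α * z.1 + β * z.2})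
          ((convex_cross_nonneg s w).inter (Glue_convex_gt α β _)) ?_ _ ?_
        · rintro z ⟨x, y, hx, hy, hxy, rfl⟩ ⟨hz1, hz2⟩
          simp only [Set.mem_ofPred_eq] at hz1 hz2
          rw [cross_affine s w v s x y hxy, ess] at hz1
          have hx0 : x = 0 := by
            by_contra hne
            have hx' : 0 < x := lt_of_le_of_ne hx (Ne.symm hne)
            have := mul_neg_of_pos_of_neg hx' hv
            linarith
          have hy1 : y = 1 := by linarith
          rw [hx0, hy1] at hz2
          simp at hz2
        · intro x hx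
          exact ⟨(hr x hx).2, hφ2 x hx⟩
      · have hy : 0 < cross v s y := hP y ((a2 y).1 List.mem_cons_self) (a5 y rfl)
        have hy1 := hφ1 y List.mem_cons_self
        have a3' : SimpleE (v :: y :: (m ++ [s])) := by simpa using a3
        have goal : SimpleE (v :: y :: (m ++ s :: (l2 ++ [w]))) := by
          refine simpleE_cons v y _ ?_ ?_
          · refine Glue_avoid_append v y s m (l2 ++ [w]) (simpleE_avoid _ _ _ a3') ?_
            refine Glue_avoid_convex v y ({z | cross v s z ≤ 0} ∩ {z | 0 ≤ cross s w z})
              ((convex_cross_nonpos v s).inter (convex_cross_nonneg s w)) ?_ _ ?_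
            · rintro z ⟨x, t, hx, ht, hxt, rfl⟩ ⟨hz1, hz2⟩
              simp only [Set.mem_ofPred_eq] at hz1 hz2
              have evv : cross v s v = 0 := by simp only [cross]; ring
              rw [cross_affine v s v y x t hxt, evv] at hz1
              have ht0 : t = 0 := by
                by_contra hne
                have ht' : 0 < t := lt_of_le_of_ne ht (Ne.symm hne)
                have := mul_pos ht' hy
                linarith
              have hx1 : x = 1 := by linarith
              rw [cross_affine s w v y x t hxt, ht0, hx1] at hz2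
              linarith
            · intro x hx
              rcases List.mem_cons.1 hx with rfl | hx
              · have evx : cross v x x = 0 := by simp only [cross]; ring
                exact ⟨evx.le, ess.ge⟩
              · exact ⟨(hr x hx).1.le, (hr x hx).2⟩
          · have := Glue_simple α β s (y :: m) (l2 ++ [w]) hφ1 hφ2
              (by simpa using simpleE_tail _ _ a3') b3
            simpa using this
        simpa using goal
  · rw [hL]
    have h3 := leftT_append (v :: l1) (l2 ++ [w]) s
    have h4 : leftT ((v :: l1) ++ [s]) ≤ r1 := by simpa using a4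
    omega
  · intro y hy
    rcases l1 with _ | ⟨z, m⟩
    · right
      simpa using hy.symm
    · left
      refine a5 y ?_
      simpa using hy

end Pool.Agent.Lib.MP_9bb24e_co
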