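import Pool.Agent.Lib.MP_9bb24e_co.V.VtxA
import Pool.Agent.Lib.MP_9bb24e_co.U.CutB
import Pool.Agent.Lib.MP_9bb24e_co.U.Hull

/-!
# Module LowA: the lowest and the leftmost point

* `exists_low`: minimum of `CutB_Y v w` over `S` without `v, w` (`CutB_low`:
  `CutB_Y v w p < CutB_Y v w q ↔ 0 < cross w q p`; and `cross w q s = cross s w q` (ring); it is not `0`
  by general position, `cross_ne_zero_of_genPos`).
* `Low.cross_v`: `cross s w v = cross v s w = - cross v w s` and `h.inst.left`.
* `view_mono`: put `A = b - a`, `V = v - a`, `X = x - a`, `Y = y - a`. Hypotheses `A × V < 0`,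
  `A × X > 0`, `A × Y > 0`, `X × Y < 0`, `cross v a y = - (V × Y)`... (ring: `cross v a y = cross a y v`,
  that is `Y × V > 0`). Claim `X × V > 0`. Identity
  `(A × Y) (X × V) = (A × X) (Y × V) + (A × V) (X × Y)` (Plücker, ring); the right side is positive.
* `Low.vtx_right`: if `q` is not right of `v s` then `cross v s q > 0` (general position; for `q = w`
  it is negative, `cross v s w = cross s w v`), `q ≠ w`, and `s` is strictly inside the triangle `v w q`:
  `cross v w s > 0`, `cross w q s = cross s w q > 0`, `cross q v s = cross v s q > 0`;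
  `not_vtx_of_triangle`.
* `Low.exists_lft`: `g` = minimum of `CutB_X v w` (leftmost: `0 < cross v q g` for the others,
  `cross v g q < 0`; for `q = w`: `cross v g w = - cross v w g < 0`). `Vtx S g` by
  `vtx_of_edge_neg` for the edge `v g`. If `g = s` then `Vtx S s`, contradiction. `g` left of `v s`:
  `cross v g s < 0`, `cross v s g = - cross v g s`.
* `Low.before`: `cross v s q > 0` by `view_mono` (`a = s`, `b = w`, `x = q`, `y = g`). `q ≠ g`
  (`cross s g g = 0`). `q` is strictly inside the clockwise triangle `v, g, s`: `cross v g q < 0`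
  (leftmost), `cross g s q < 0` (`cross g s q = cross s q g`, ring), `cross s v q = - cross v s q < 0`;
  `not_vtx_of_triangle_neg`.
-/

set_option autoImplicit false

namespace Pool.Agent.Lib.MP_9bb24e_co

open Finset

theorem exists_low {S : Finset (ℝ × ℝ)} {v w : ℝ × ℝ} (h : Inst S v w) (h3 : 3 ≤ S.card) :
    ∃ s, Low S v w s := by
  classical
  set T : Finset (ℝ × ℝ) := (S.erase v).erase w with hT
  have hTc : T.card + 2 = S.card := by
    rw [hT, Finset.card_erase_of_mem (Finset.mem_erase.mpr ⟨h.ne.symm, h.w_mem⟩),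
      Finset.card_erase_of_mem h.v_mem]
    omega
  have hTm : ∀ p, p ∈ T ↔ p ∈ S ∧ p ≠ v ∧ p ≠ w := by
    intro p
    rw [hT, Finset.mem_erase, Finset.mem_erase]
    tauto
  have hne : T.Nonempty := card_pos.1 (by omega)
  obtain ⟨s, hs, hmin⟩ := exists_min_image T (CutB_Y v w) hne
  obtain ⟨hs1, hs2, hs3⟩ := (hTm s).1 hs
  refine ⟨s, h, hs1, hs2, hs3, ?_⟩
  intro q hq hqs hqv hqw
  have hqT : q ∈ T := (hTm q).2 ⟨hq, hqv, hqw⟩
  have h1 := hmin q hqT
  have h2 : ¬ 0 < cross w s q := by
    intro hcon
    have h4 := (CutB_low h.ne (h.left q hq hqv hqw) (h.left s hs1 hs2 hs3)).2 hcon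
    linarith
  have h5 : cross s w q ≠ 0 :=
    cross_ne_zero_of_genPos h.gp hs1 h.w_mem hq hs3 (Ne.symm hqw) (Ne.symm hqs)
  have h6 : cross s w q = - cross w s q := by simp only [cross]; ring
  rcases lt_or_gt_of_ne h5 with h7 | h7
  · exact absurd (by linarith) h2
  · exact h7

theorem Low.cross_v {S : Finset (ℝ × ℝ)} {v w s : ℝ × ℝ} (h : Low S v w s) : cross s w v < 0 := by
  have h1 := h.inst.left s h.mem h.nev h.new
  have h2 : cross s w v = - cross v w s := by simp only [cross]; ring
  linarith

/-- If `x` is before `y` in the rotation about `a` and `y` is left of `v a`, so is `x`. -/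
theorem view_mono {a b v x y : ℝ × ℝ} (hv : cross a b v < 0) (hx : 0 < cross a b x)
    (hy : 0 < cross a b y) (h : cross a x y < 0) (hl : 0 < cross v a y) : 0 < cross v a x := by
  have key : cross a b y * cross v a x = cross a b x * cross v a y + cross a b v * cross a x y := by
    simp only [cross]; ring
  have h1 : 0 < cross a b x * cross v a y := mul_pos hx hl
  have h2 : 0 < cross a b v * cross a x y := mul_pos_of_neg_of_neg hv h
  have h3 : 0 < cross a b y * cross v a x := by rw [key]; linarith
  exact (pos_iff_pos_of_mul_pos h3).1 hy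

theorem Low.vtx_right {S : Finset (ℝ × ℝ)} {v w s : ℝ × ℝ} (h : Low S v w s) (he : Vtx S s) :
    ∀ q ∈ S, q ≠ v → q ≠ s → cross v s q < 0 := by
  intro q hq hqv hqs
  have h0 := h.inst.left s h.mem h.nev h.new
  by_cases hqw : q = w
  · subst hqw
    have h2 : cross v s q = - cross v q s := by simp only [cross]; ring
    linarith
  · by_contra hcon
    have h1 : cross v s q ≠ 0 :=
      cross_ne_zero_of_genPos h.inst.gp h.inst.v_mem h.mem hq (Ne.symm h.nev) (Ne.symm hqs)
        (Ne.symm hqv)
    have h2 : 0 < cross v s q := lt_of_le_of_ne (not_lt.1 hcon) (Ne.symm h1)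
    have h3 := h.low q hq hqs hqv hqw
    refine not_vtx_of_triangle h.inst.v_mem h.inst.w_mem hq h0 ?_ ?_ he
    · have h4 : cross w q s = cross s w q := by simp only [cross]; ring
      linarith
    · have h4 : cross q v s = cross v s q := by simp only [cross]; ring
      linarith

theorem Low.exists_lft {S : Finset (ℝ × ℝ)} {v w s : ℝ × ℝ} (h : Low S v w s) (hn : ¬ Vtx S s) :
    ∃ g, Lft S v w s g ∧ Vtx S g ∧ 0 < cross v s g := by
  classical
  have hI := h.inst
  set T : Finset (ℝ × ℝ) := (S.erase v).erase w with hT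
  have hTm : ∀ p, p ∈ T ↔ p ∈ S ∧ p ≠ v ∧ p ≠ w := by
    intro p
    rw [hT, Finset.mem_erase, Finset.mem_erase]
    tauto
  have hne : T.Nonempty := ⟨s, (hTm s).2 ⟨h.mem, h.nev, h.new⟩⟩
  obtain ⟨g, hg, hmin⟩ := exists_min_image T (CutB_X v w) hne
  obtain ⟨hg1, hg2, hg3⟩ := (hTm g).1 hg
  have hlft : ∀ q ∈ S, q ≠ v → q ≠ g → cross v g q < 0 := by
    intro q hq hqv hqg
    by_cases hqw : q = w
    · subst hqw
      have h1 := hI.left g hg1 hg2 hg3
      have h2 : cross v g q = - cross v q g := by simp only [cross]; ring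
      linarith
    · have h1 := hmin q ((hTm q).2 ⟨hq, hqv, hqw⟩)
      have h2 : ¬ 0 < cross v g q := by
        intro hcon
        have h4 := (CutB_left hI.ne (hI.left q hq hqv hqw) (hI.left g hg1 hg2 hg3)).2 hcon
        linarith
      have h5 : cross v g q ≠ 0 :=
        cross_ne_zero_of_genPos hI.gp hI.v_mem hg1 hq (Ne.symm hg2) (Ne.symm hqg) (Ne.symm hqv)
      exact lt_of_le_of_ne (not_lt.1 h2) h5
  have hgV : Vtx S g := (vtx_of_edge_neg hI.v_mem hg1 (Ne.symm hg2)
    (fun q hq hqv hqg => hlft q hq hqv hqg)).2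
  have hgs : g ≠ s := by rintro rfl; exact hn hgV
  refine ⟨g, ⟨hg1, hg2, hg3, hgs, hlft⟩, hgV, ?_⟩
  have h1 := hlft s h.mem h.nev (Ne.symm hgs)
  have h2 : cross v s g = - cross v g s := by simp only [cross]; ring
  linarith

/-- A point before the leftmost point `g` in the rotation about `s` is left of `v s` and is not a
hull vertex. -/
theorem Low.before {S : Finset (ℝ × ℝ)} {v w s g q : ℝ × ℝ} (h : Low S v w s)
    (hg : Lft S v w s g) (hvg : 0 < cross v s g) (hq : q ∈ S) (hqv : q ≠ v) (hqw : q ≠ w)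
    (hqs : q ≠ s) (hb : cross s q g < 0) : 0 < cross v s q ∧ ¬ Vtx S q := by
  have h1 : 0 < cross v s q := view_mono h.cross_v (h.low q hq hqs hqv hqw)
    (h.low g hg.mem hg.nes hg.nev hg.new) hb hvg
  refine ⟨h1, ?_⟩
  have hqg : q ≠ g := by
    rintro rfl
    have : cross s q q = 0 := by simp only [cross]; ring
    linarith
  refine not_vtx_of_triangle_neg h.inst.v_mem hg.mem h.mem (hg.lft q hq hqv hqg) ?_ ?_
  · have h4 : cross g s q = cross s q g := by simp only [cross]; ring
    linarith
  · have h4 : cross s v q = - cross v s q := by simp only [cross]; ring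
    linarith

end Pool.Agent.Lib.MP_9bb24e_co
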