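import Pool.Agent.Lib.MP_9bb24e_co.V.Glue2
import Pool.Agent.Lib.MP_9bb24e_co.V.Fan
import Pool.Agent.Lib.MP_9bb24e_co.V.Conv
import Pool.Agent.Lib.MP_9bb24e_co.V.LowA
import Pool.Agent.Lib.MP_9bb24e_co.U.Small

/-!
# Module LemG: at most half of the inner points (rounded up)

Induction on the number of points (strong). `S.card = 2`: `TP_two` of module `Small`, or `chn_nil`.
Let `s` be the lowest point, `T = S` without `v, w, s`.

(a) `Vtx S s`: `Low.vtx_right`; `S' = S.erase v = insert s (insert w T)` is an instance with base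
`s, w` (`sub_inst`), `inN S' ≤ inN S` (a point that is not `Vtx S'` is not `Vtx S`), induction,
`chn_iff_TP`, `Chn.prepend`, `chn_iff_TP`.

(b) not `Vtx S s`: `g` from `Low.exists_lft`.
If all points of `T` are `Vtx S`: `Q = T`, `R = ∅`, chain `fan` (first point is `g`: an earlier point
would not be `Vtx S` by `Low.before`) glued with `chn_nil`: at most `1` left turn, and `inN S = 1`
(only `s`; `v` and `w` are `Vtx` by `vtx_of_edge_pos`).
Otherwise `y` from `rot_split` with `X = Vtx S`; `Q = {q ∈ T | cross s q y < 0}`, `R = T \ Q` (`y ∈ R`,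
and `cross s y q < 0` for the other `q ∈ R`). `hord`: `rot_trans` (or `rot` with `y`). If `Q = ∅`:
`chn_nil`. Otherwise the first element of `Q` is `g`: let `x` be the first element; if `x ≠ g` then
`cross s x g < 0` or `cross s g x < 0`; in the second case `g` is before `x`, before `y`, so `g ∈ Q` is
before the first element, contradiction; in the first case `x` is not `Vtx S` by `Low.before`,
contradiction. So `fan` applies (all of `Q` are `Vtx S`, hence `Vtx (insert s Q)`). The second part:
instance `insert s (insert w R)` by `sub_inst`, induction. `inN (insert s (insert w R)) + 2 ≤ inN S`: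
the points of it that are not `Vtx` are in `R`, not `y` (`sub_vtx_first`), not `Vtx S` (`Vtx.mono`), so
they lie in the filter of `S` without `s` and `y`. Glue: `Chn.glue` (for `hP`: the second vertex is `g`,
left of `v s`). Total `0 + (inN' + 1) / 2 + 1 ≤ (inN S + 1) / 2`.
-/

set_option autoImplicit false

namespace Pool.Agent.Lib.MP_9bb24e_co

open Finset

private theorem lemG_mono {S : Finset (ℝ × ℝ)} {v w : ℝ × ℝ} {r r' : ℕ} (h : TP S v w r)
    (hr : r ≤ r') : TP S v w r' := by
  obtain ⟨l, h1, h2, h3, h4, h5, h6⟩ := h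
  exact ⟨l, h1, h2, h3, h4, h5, h6.trans hr⟩

private theorem lemG_ring (a b c : ℝ × ℝ) : cross a c b = - cross a b c := by
  simp only [cross]
  ring

/-- The inner points without the lowest one. -/
private noncomputable def lemG_T (S : Finset (ℝ × ℝ)) (v w s : ℝ × ℝ) : Finset (ℝ × ℝ) := by
  classical exact ((S.erase v).erase w).erase s

private theorem lemG_memT {S : Finset (ℝ × ℝ)} {v w s q : ℝ × ℝ} :
    q ∈ lemG_T S v w s ↔ q ≠ s ∧ q ≠ w ∧ q ≠ v ∧ q ∈ S := by
  simp only [lemG_T, Finset.mem_erase]

private theorem lemG_S {S : Finset (ℝ × ℝ)} {v w s : ℝ × ℝ} (h : Low S v w s) :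
    insert v (insert w (insert s (lemG_T S v w s))) = S := by
  ext q
  simp only [Finset.mem_insert, lemG_memT]
  constructor
  · rintro (rfl | rfl | rfl | h1)
    · exact h.inst.v_mem
    · exact h.inst.w_mem
    · exact h.mem
    · exact h1.2.2.2
  · intro hq
    by_cases h1 : q = v
    · exact Or.inl h1
    by_cases h2 : q = w
    · exact Or.inr (Or.inl h2)
    by_cases h3 : q = s
    · exact Or.inr (Or.inr (Or.inl h3))
    · exact Or.inr (Or.inr (Or.inr ⟨h3, h2, h1, hq⟩))

/-- The first part. -/
private theorem lemG_first {S Q : Finset (ℝ × ℝ)} {v w s g : ℝ × ℝ} (h : Low S v w s)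
    (hg : Lft S v w s g) (hvg : 0 < cross v s g) (hQT : Q ⊆ lemG_T S v w s)
    (hQV : ∀ q ∈ Q, Vtx S q)
    (hdown : ∀ q ∈ Q, ∀ p ∈ lemG_T S v w s, cross s p q < 0 → p ∈ Q) :
    Chn Q v s 0 (fun y => y = g) := by
  have hT : ∀ q ∈ lemG_T S v w s, 0 < cross s w q := fun q hq => by
    rw [lemG_memT] at hq
    exact h.low q hq.2.2.2 hq.1 hq.2.2.1 hq.2.1
  have hne : ∀ p ∈ lemG_T S v w s, ∀ q ∈ lemG_T S v w s, p ≠ q → cross s p q ≠ 0 := by
    intro p hp q hq hpq
    rw [lemG_memT] at hp hq
    exact cross_ne_zero_of_genPos h.inst.gp h.mem hp.2.2.2 hq.2.2.2 (Ne.symm hp.1) hpq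
      (Ne.symm hq.1)
  have hgT : g ∈ lemG_T S v w s := lemG_memT.2 ⟨hg.nes, hg.new, hg.nev, hg.mem⟩
  rcases Q.eq_empty_or_nonempty with rfl | hQ
  · exact chn_nil (Ne.symm h.nev) _
  · obtain ⟨x, hx, hxf⟩ := rot_first (T := Q) (a := s) (b := w) (fun q hq => hT q (hQT hq))
      (fun p hp q hq hpq => hne p (hQT hp) q (hQT hq) hpq) hQ
    have hxg : x = g := by
      by_contra hxg
      have hxT := lemG_memT.1 (hQT hx)
      rcases lt_or_gt_of_ne (hne x (hQT hx) g hgT hxg) with h1 | h1
      · exact (h.before hg hvg hxT.2.2.2 hxT.2.2.1 hxT.2.1 hxT.1 h1).2 (hQV x hx)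
      · have h2 : cross s g x < 0 := by
          rw [lemG_ring s x g]
          linarith
        have h3 := hxf g (hdown x hx g hgT h2) (Ne.symm hxg)
        linarith
    subst hxg
    refine fan (b := w) (fun q hq => hT q (hQT hq))
      (fun p hp q hq hpq => hne p (hQT hp) q (hQT hq) hpq) ?_ hx hxf ?_ ?_
    · intro q hq
      refine (hQV q hq).mono ?_ (Finset.mem_insert_of_mem hq)
      intro z hz
      rcases Finset.mem_insert.1 hz with rfl | hz
      · exact h.mem
      · exact (lemG_memT.1 (hQT hz)).2.2.2
    · intro q hq hqx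
      have := lemG_memT.1 (hQT hq)
      exact hg.lft q this.2.2.2 this.2.2.1 hqx
    · exact hg.lft s h.mem h.nev (Ne.symm hg.nes)

private theorem lemG_aux (n : ℕ) : ∀ (S : Finset (ℝ × ℝ)) (v w : ℝ × ℝ), S.card = n →
    Inst S v w → TP S v w ((inN S + 1) / 2) := by
  classical
  induction n using Nat.strong_induction_on with
  | _ n ih =>
  intro S v w hn h
  have h2 := h.two_le
  rcases Nat.lt_or_ge S.card 3 with h3 | h3
  · exact lemG_mono (TP_two h (by omega)) (Nat.zero_le _)
  obtain ⟨s, hs⟩ := exists_low h h3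
  set T := lemG_T S v w s with hTdef
  have hSeq : insert v (insert w (insert s T)) = S := lemG_S hs
  have hTS : T ⊆ S := fun q hq => (lemG_memT.1 hq).2.2.2
  have hT : ∀ q ∈ T, 0 < cross s w q := fun q hq => by
    have := lemG_memT.1 hq
    exact hs.low q this.2.2.2 this.1 this.2.2.1 this.2.1
  have hne : ∀ p ∈ T, ∀ q ∈ T, p ≠ q → cross s p q ≠ 0 := by
    intro p hp q hq hpq
    have hp' := lemG_memT.1 hp
    have hq' := lemG_memT.1 hq
    exact cross_ne_zero_of_genPos h.gp hs.mem hp'.2.2.2 hq'.2.2.2 (Ne.symm hp'.1) hpq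
      (Ne.symm hq'.1)
  have hsT : s ∉ T := fun hq => (lemG_memT.1 hq).1 rfl
  have hwT : w ∉ T := fun hq => (lemG_memT.1 hq).2.1 rfl
  have hvT : v ∉ T := fun hq => (lemG_memT.1 hq).2.2.1 rfl
  have hvs' : v ∉ insert s T := by
    rw [Finset.mem_insert]
    rintro (h1 | h1)
    · exact hs.nev h1.symm
    · exact hvT h1
  have hws' : w ∉ insert s T := by
    rw [Finset.mem_insert]
    rintro (h1 | h1)
    · exact hs.new h1.symm
    · exact hwT h1
  have hsmall : ∀ R : Finset (ℝ × ℝ), R ⊆ T →
      TP (insert s (insert w R)) s w ((inN (insert s (insert w R)) + 1) / 2) := by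
    intro R hR
    have hI : Inst (insert s (insert w R)) s w :=
      sub_inst h.gp (hR.trans hTS) hs.mem h.w_mem hs.new (fun q hq => hT q (hR hq))
    refine ih (insert s (insert w R)).card ?_ _ s w rfl hI
    rw [← hn]
    refine Finset.card_lt_card ?_
    rw [Finset.ssubset_iff_of_subset]
    · refine ⟨v, h.v_mem, ?_⟩
      simp only [Finset.mem_insert]
      rintro (h1 | h1 | h1)
      · exact hs.nev h1.symm
      · exact h.ne h1
      · exact hvT (hR h1)
    · intro z hz
      simp only [Finset.mem_insert] at hz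
      rcases hz with rfl | rfl | hz
      · exact hs.mem
      · exact h.w_mem
      · exact hTS (hR hz)
  have hsubS : ∀ R : Finset (ℝ × ℝ), R ⊆ T → insert s (insert w R) ⊆ S := by
    intro R hR z hz
    simp only [Finset.mem_insert] at hz
    rcases hz with rfl | rfl | hz
    · exact hs.mem
    · exact h.w_mem
    · exact hTS (hR hz)
  by_cases hvx : Vtx S s
  · have hright := hs.vtx_right hvx
    have e1 := (chn_iff_TP hsT hwT hs.new).1 (hsmall T (Finset.Subset.refl T))
    have e2 := e1.prepend (hright w h.w_mem (Ne.symm h.ne) (Ne.symm hs.new)) (fun q hq => by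
      have := lemG_memT.1 hq
      exact hright q this.2.2.2 this.2.2.1 this.1)
    have hle : inN (insert s (insert w T)) ≤ inN S := by
      unfold inN
      refine Finset.card_le_card ?_
      intro p hp
      rw [Finset.mem_filter] at hp ⊢
      refine ⟨hsubS T (Finset.Subset.refl T) hp.1, fun hpv => hp.2 ?_⟩
      exact hpv.mono (hsubS T (Finset.Subset.refl T)) hp.1
    have e3 : Chn (insert s T) v w ((inN S + 1) / 2) (fun _ => True) :=
      e2.mono (by omega) (fun _ _ _ => trivial)
    have e4 := (chn_iff_TP hvs' hws' h.ne).2 e3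
    rw [hSeq] at e4
    exact e4
  · obtain ⟨g, hg, hgV, hvg⟩ := hs.exists_lft hvx
    have hcv := hs.cross_v
    by_cases hall : ∀ q ∈ T, Vtx S q
    · have e1 := lemG_first (Q := T) hs hg hvg (Finset.Subset.refl _) hall
        (fun _ _ p hp _ => hp)
      have e2 : Chn ∅ s w 0 (fun _ => True) := chn_nil hs.new _
      have e3 := Chn.glue e1 e2 (fun y _ hy => by rw [hy]; exact hvg) hT
        (fun q hq => absurd hq (Finset.notMem_empty q)) hcv
        (fun _ _ q hq => absurd hq (Finset.notMem_empty q))
      rw [Finset.union_empty] at e3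
      have hge : 1 ≤ inN S := by
        unfold inN
        rw [Nat.one_le_iff_ne_zero, Ne, Finset.card_eq_zero]
        intro h0
        have : s ∈ S.filter fun p => ¬ Vtx S p := Finset.mem_filter.2 ⟨hs.mem, hvx⟩
        rw [h0] at this
        exact absurd this (Finset.notMem_empty s)
      have e4 : Chn (insert s T) v w ((inN S + 1) / 2) (fun _ => True) :=
        e3.mono (by omega) (fun _ _ _ => trivial)
      have e5 := (chn_iff_TP hvs' hws' h.ne).2 e4
      rw [hSeq] at e5
      exact e5
    · push Not at hall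
      obtain ⟨y, hy, hyV, hyq⟩ := rot_split hT hne (fun q => Vtx S q) hall
      set Q := T.filter (fun q => cross s q y < 0) with hQdef
      set R := T.filter (fun q => ¬ cross s q y < 0) with hRdef
      have hQT : Q ⊆ T := Finset.filter_subset _ _
      have hRT : R ⊆ T := Finset.filter_subset _ _
      have hyR : y ∈ R := by
        rw [hRdef, Finset.mem_filter]
        refine ⟨hy, ?_⟩
        have : cross s y y = 0 := by
          simp only [cross]
          ring
        rw [this]
        exact lt_irrefl _
      have hyf : ∀ q ∈ R, q ≠ y → cross s y q < 0 := by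
        intro q hq hqy
        rw [hRdef, Finset.mem_filter] at hq
        have h1 := hne q hq.1 y hy hqy
        rcases lt_or_gt_of_ne h1 with h4 | h4
        · exact absurd h4 hq.2
        · rw [lemG_ring s q y]
          linarith
      have hord : ∀ p ∈ Q, ∀ q ∈ R, cross s p q < 0 := by
        intro p hp q hq
        have hp' : cross s p y < 0 := (Finset.mem_filter.1 hp).2
        by_cases hqy : q = y
        · rw [hqy]
          exact hp'
        · exact rot_trans (hT p (hQT hp)) (hT y hy) (hT q (hRT hq)) hp' (hyf q hq hqy)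
      have hdown : ∀ q ∈ Q, ∀ p ∈ T, cross s p q < 0 → p ∈ Q := by
        intro q hq p hp hpq
        rw [hQdef, Finset.mem_filter] at hq ⊢
        exact ⟨hp, rot_trans (hT p hp) (hT q hq.1) (hT y hy) hpq hq.2⟩
      have e1 := lemG_first (Q := Q) hs hg hvg hQT
        (fun q hq => hyq q (hQT hq) (Finset.mem_filter.1 hq).2) hdown
      have hsR : s ∉ R := fun hq => hsT (hRT hq)
      have hwR : w ∉ R := fun hq => hwT (hRT hq)
      have e2 := (chn_iff_TP hsR hwR hs.new).1 (hsmall R hRT)
      have e3 := Chn.glue e1 e2 (fun y _ hy => by rw [hy]; exact hvg)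
        (fun q hq => hT q (hQT hq)) (fun q hq => hT q (hRT hq)) hcv hord
      have hQR : Q ∪ R = T := by
        rw [hQdef, hRdef]
        exact Finset.filter_union_filter_not_eq _ _
      rw [hQR] at e3
      have hRl : ∀ q ∈ R, 0 < cross s w q := fun q hq => hT q (hRT hq)
      have hys : y ≠ s := fun e => hsT (e ▸ hy)
      have hlt : inN (insert s (insert w R)) + 2 ≤ inN S := by
        have hsub : (insert s (insert w R)).filter (fun p => ¬ Vtx (insert s (insert w R)) p) ⊆
            ((S.filter (fun p => ¬ Vtx S p)).erase s).erase y := by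
          intro p hp
          rw [Finset.mem_filter] at hp
          have hpV : ¬ Vtx S p := fun hv' => hp.2 (hv'.mono (hsubS R hRT) hp.1)
          have hps : p ≠ s := by
            rintro rfl
            exact hp.2 (sub_vtx hs.new hRl).1
          have hpy : p ≠ y := by
            rintro rfl
            exact hp.2 (sub_vtx_first hRl hyR hyf)
          rw [Finset.mem_erase, Finset.mem_erase, Finset.mem_filter]
          exact ⟨hpy, hps, hsubS R hRT hp.1, hpV⟩
        have hc := Finset.card_le_card hsub
        have hsF : s ∈ S.filter (fun p => ¬ Vtx S p) := Finset.mem_filter.2 ⟨hs.mem, hvx⟩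
        have hyF : y ∈ (S.filter (fun p => ¬ Vtx S p)).erase s := by
          rw [Finset.mem_erase, Finset.mem_filter]
          exact ⟨hys, hTS hy, hyV⟩
        have c1 := Finset.card_erase_add_one hsF
        have c2 := Finset.card_erase_add_one hyF
        unfold inN
        omega
      have e4 : Chn (insert s T) v w ((inN S + 1) / 2) (fun _ => True) :=
        e3.mono (by omega) (fun _ _ _ => trivial)
      have e5 := (chn_iff_TP hvs' hws' h.ne).2 e4
      rw [hSeq] at e5
      exact e5

theorem lemG {S : Finset (ℝ × ℝ)} {v w : ℝ × ℝ} (h : Inst S v w) :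
    TP S v w ((inN S + 1) / 2) := lemG_aux S.card S v w rfl h

end Pool.Agent.Lib.MP_9bb24e_co
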