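import Pool.Agent.Lib.MP_9bb24e_co.V.VtxA
import Pool.Agent.Lib.MP_9bb24e_co.V.LowA

/-!
# Module LemPa: two facts for the prefix lemma

`p` is the first element of `W` in the rotation about `s`, `p ≠ g`; `t` is the last one.

* `P_first`: `cross s p g < 0`, so `Low.before` gives the first two claims. `cross p s q = - cross s p q`
  `> 0`; `cross p s v = - cross v s p < 0`.
* `P_q1`: let `x` be the first element of `W \ {p}` in the rotation about `p`, and `Vtx S x` or `x = t`.
  Suppose `x ≠ g`; then `cross p x g < 0`.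
  `cross v g x < 0` (leftmost), `cross g p x = cross p x g < 0` (ring), and `cross v p x > 0` by `view_mono`
  (`a = p`, `b = s`, `x`, `y = g`; `cross v p g = - cross v g p > 0`), so `cross p v x < 0`. So `x` is strictly
  inside the clockwise triangle `v, g, p`: `not_vtx_of_triangle_neg`, hence not `Vtx S x` and `x = t`.
  But `cross s x g < 0`: with `α = cross g p x`, `β = cross p v x`, `γ = cross v g x` (all negative, sum
  `D = cross v g p`): `D * cross s x g = α * cross s v g + γ * cross s p g` (ring identity;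
  `β * cross s g g = 0`), `cross s v g = - cross v s g < 0`, `cross s p g < 0`, so the right side is
  positive and `D < 0`. But `t = x` is the last element about `s`: `cross s g t < 0` (`g ≠ t = x`), and
  `cross s x g = - cross s g x > 0`, contradiction.
-/

set_option autoImplicit false

namespace Pool.Agent.Lib.MP_9bb24e_co

open Finset

theorem P_first {S W : Finset (ℝ × ℝ)} {v w s g p : ℝ × ℝ} (h : Low S v w s)
    (hg : Lft S v w s g) (hvg : 0 < cross v s g)
    (hW : ∀ q ∈ W, q ∈ S ∧ q ≠ v ∧ q ≠ w ∧ q ≠ s) (hgW : g ∈ W) (hp : p ∈ W) (hpg : p ≠ g)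
    (hpf : ∀ q ∈ W, q ≠ p → cross s p q < 0) :
    0 < cross v s p ∧ ¬ Vtx S p ∧ (∀ q ∈ W, q ≠ p → 0 < cross p s q) ∧ cross p s v < 0 := by
  obtain ⟨h1, h2, h3, h4⟩ := hW p hp
  obtain ⟨h5, h6⟩ := h.before hg hvg h1 h2 h3 h4 (hpf g hgW (Ne.symm hpg))
  refine ⟨h5, h6, ?_, ?_⟩
  · intro q hq hqp
    have h7 := hpf q hq hqp
    have h8 : cross p s q = - cross s p q := by simp only [cross]; ring
    linarith
  · have h8 : cross p s v = - cross v s p := by simp only [cross]; ring
    linarith

theorem P_q1 {S W : Finset (ℝ × ℝ)} {v w s g p t x : ℝ × ℝ} (h : Low S v w s)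
    (hg : Lft S v w s g) (hvg : 0 < cross v s g)
    (hW : ∀ q ∈ W, q ∈ S ∧ q ≠ v ∧ q ≠ w ∧ q ≠ s) (hgW : g ∈ W) (hp : p ∈ W) (hpg : p ≠ g)
    (hpf : ∀ q ∈ W, q ≠ p → cross s p q < 0) (ht : t ∈ W)
    (htl : ∀ q ∈ W, q ≠ t → cross s q t < 0) (hx : x ∈ W) (hxp : x ≠ p)
    (hxf : ∀ q ∈ W, q ≠ p → q ≠ x → cross p x q < 0) (hX : Vtx S x ∨ x = t) : x = g := by
  by_contra hxg
  obtain ⟨h1, h2, h3, h4⟩ := P_first h hg hvg hW hgW hp hpg hpf
  obtain ⟨hp1, hp2, hp3, hp4⟩ := hW p hp
  obtain ⟨hx1, hx2, hx3, hx4⟩ := hW x hx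
  have a1 : cross p x g < 0 := hxf g hgW (Ne.symm hpg) (Ne.symm hxg)
  have a2 : cross v g x < 0 := hg.lft x hx1 hx2 hxg
  have a3 : cross v g p < 0 := hg.lft p hp1 hp2 hpg
  have a4 : 0 < cross v p x := by
    refine view_mono h4 (h3 x hx hxp) (h3 g hgW (Ne.symm hpg)) a1 ?_
    have h8 : cross v p g = - cross v g p := by simp only [cross]; ring
    linarith
  have a5 : cross g p x < 0 := by
    have h8 : cross g p x = cross p x g := by simp only [cross]; ring
    linarith
  have a6 : cross p v x < 0 := by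
    have h8 : cross p v x = - cross v p x := by simp only [cross]; ring
    linarith
  have a7 := not_vtx_of_triangle_neg h.inst.v_mem hg.mem hp1 a2 a5 a6
  have hxt : x = t := hX.resolve_left a7
  have b1 : cross s g x < 0 := by
    rw [hxt]
    exact htl g hgW (fun e => hxg (by rw [hxt, e]))
  have b2 : cross s p g < 0 := hpf g hgW (Ne.symm hpg)
  have key : cross v g p * cross s x g =
      cross g p x * cross s v g + cross v g x * cross s p g := by
    simp only [cross]; ring
  have c1 : cross s v g = - cross v s g := by simp only [cross]; ring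
  have c2 : cross s x g = - cross s g x := by simp only [cross]; ring
  have d1 : 0 < cross g p x * cross s v g := mul_pos_of_neg_of_neg a5 (by linarith)
  have d2 : 0 < cross v g x * cross s p g := mul_pos_of_neg_of_neg a2 b2
  have d3 : cross v g p * cross s x g < 0 := mul_neg_of_neg_of_pos a3 (by linarith)
  linarith

end Pool.Agent.Lib.MP_9bb24e_co
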