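import Pool.Agent.Lib.MP_9bb24e_co.V.LemG
import Pool.Agent.Lib.MP_9bb24e_co.V.LemPa

/-!
# Module LemP: the prefix lemma

`W` is a set of points of `S` (without `v, w, s`) that contains the leftmost point `g`; `t` is its
last element in the rotation about `s`. Write `Z = W.filter (fun q => ¬ (Vtx S q ∨ q = t))`.

Let `p` be the first element of `W` (`rot_first` with `a = s`, `b = w`).

(a) `p = g`. `W' = W.erase g` is strictly left of `g s` (`cross g s q = - cross s g q > 0`), so
`insert g (insert s W')` is an instance (`sub_inst`), `lemG`. Its points that are not `Vtx` are in `Z`: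
`g`, `s` are `Vtx` (`sub_vtx`); if `q ∈ W'` is `Vtx S` then `Vtx.mono`; `t` is `Vtx` by `vtx_last` (the
set is `insert s W`). So `inN ≤ Z.card`. `chn_iff_TP`, then `Chn.prepend` with `v`, `g`, `s`
(`cross v g q < 0`).

(b) `p ≠ g`. `P_first`. `W' = W.erase p` is strictly left of `p s`. `p ∈ Z` (`p ≠ t` because
`cross s p g < 0` and `cross s g t < 0` or `g = t`). If all of `W'` satisfies `X q = Vtx S q ∨ q = t`:
`Q = W'`, `R = ∅`. Otherwise `y` from `rot_split` (`a = p`, `b = s`), `Q = {q ∈ W' | cross p q y < 0}`,
`R = W' \ Q`. As in module LemG: if `Q` is not empty its first element about `p` is also the first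
element of `W'` about `p`, so it is `g` by `P_q1`; all elements of `Q` are `Vtx` in `insert p Q`
(`Vtx.mono`; `t` is `Vtx (insert s W)` by `vtx_last`, but `p ∈ W`, so `insert p Q ⊆ insert s W`); `fan` with
`a = p`, `b = s` gives the first part (`cross v g p < 0` because `g` is leftmost). Second part: instance
`insert p (insert s R)` (`sub_inst`), `lemG`; points that are not `Vtx` there are in `Z`, not `p`, not `y`
(`sub_vtx_first`; `t ∈ R` is `Vtx` by `vtx_last` and `Vtx.mono`), so `inN + 2 ≤ Z.card` if `R` is not
empty; if `R` is empty use `chn_nil` (`1 ≤ Z.card`). Glue with `Chn.glue` (`s := p`, `w := s`;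
`hP`: `g` is left of `v p`: `cross v p g = - cross v g p > 0`), total
`0 + (inN + 1) / 2 + 1 ≤ (Z.card + 1) / 2`. The second vertex of the result is `g` or `p`, both left of
`v s`. (`insert p (Q ∪ R) = W`.)
-/

set_option autoImplicit false

namespace Pool.Agent.Lib.MP_9bb24e_co

open Finset

open Classical in
theorem lemP {S W : Finset (ℝ × ℝ)} {v w s g t : ℝ × ℝ} (h : Low S v w s)
    (hg : Lft S v w s g) (hvg : 0 < cross v s g)
    (hW : ∀ q ∈ W, q ∈ S ∧ q ≠ v ∧ q ≠ w ∧ q ≠ s) (hgW : g ∈ W) (hgE : Vtx S g) (ht : t ∈ W)
    (htl : ∀ q ∈ W, q ≠ t → cross s q t < 0) :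
    Chn W v s (((W.filter fun q => ¬ (Vtx S q ∨ q = t)).card + 1) / 2)
      (fun y => 0 < cross v s y) := by
  have gp := h.inst.gp
  have hs0 : ∀ p ∈ W, ∀ q ∈ W, p ≠ q → cross s p q ≠ 0 := fun p hp q hq hpq =>
    cross_ne_zero_of_genPos gp h.mem (hW p hp).1 (hW q hq).1 (hW p hp).2.2.2.symm hpq
      (hW q hq).2.2.2.symm
  have hlow : ∀ q ∈ W, 0 < cross s w q := fun q hq =>
    h.low q (hW q hq).1 (hW q hq).2.2.2 (hW q hq).2.1 (hW q hq).2.2.1
  obtain ⟨p, hp, hpf⟩ := rot_first hlow hs0 ⟨g, hgW⟩
  set Z := W.filter (fun q => ¬ (Vtx S q ∨ q = t)) with hZ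
  have hsW : s ∉ W := fun hs => (hW s hs).2.2.2 rfl
  have htV : Vtx (insert s W) t := vtx_last hsW ht htl
  have hsub : insert s W ⊆ S := by
    intro x hx
    rcases mem_insert.1 hx with rfl | hx
    · exact h.mem
    · exact (hW x hx).1
  have hXV : ∀ q ∈ W, (Vtx S q ∨ q = t) → Vtx (insert s W) q := by
    intro q hq hX
    rcases hX with hX | rfl
    · exact hX.mono hsub (mem_insert_of_mem hq)
    · exact htV
  by_cases hpg : p = g
  · subst hpg
    have h1 : ∀ q ∈ W.erase p, 0 < cross p s q := by
      intro q hq
      have h2 := hpf q (mem_of_mem_erase hq) (ne_of_mem_erase hq)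
      have h3 : cross p s q = - cross s p q := by simp only [cross]; ring
      linarith
    have hps : p ≠ s := (hW p hp).2.2.2
    have hI : Inst (insert p (insert s (W.erase p))) p s :=
      sub_inst gp (fun q hq => (hW q (mem_of_mem_erase hq)).1) (hW p hp).1 h.mem hps h1
    have hV := sub_vtx hps h1
    have hT := lemG hI
    have hC := (chn_iff_TP (notMem_erase p W) (fun hs => hsW (mem_of_mem_erase hs)) hps).1 hT
    have hC2 := hC.prepend (v := v) (hg.lft s h.mem h.nev hps.symm)
      (fun q hq => hg.lft q (hW q (mem_of_mem_erase hq)).1 (hW q (mem_of_mem_erase hq)).2.1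
        (ne_of_mem_erase hq))
    rw [insert_erase hp] at hC2
    refine hC2.mono ?_ ?_
    · refine Nat.div_le_div_right (Nat.add_le_add_right ?_ 1)
      unfold inN
      refine card_le_card ?_
      intro x hx
      rw [mem_filter] at hx
      obtain ⟨hx1, hx2⟩ := hx
      have hxp : x ≠ p := by rintro rfl; exact hx2 hV.1
      have hxs : x ≠ s := by rintro rfl; exact hx2 hV.2
      have hxW : x ∈ W := by
        rcases mem_insert.1 hx1 with h4 | h4
        · exact absurd h4 hxp
        · rcases mem_insert.1 h4 with h5 | h5
          · exact absurd h5 hxs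
          · exact mem_of_mem_erase h5
      rw [hZ, mem_filter]
      refine ⟨hxW, fun hX => hx2 ((hXV x hxW hX).mono ?_ hx1)⟩
      intro z hz
      rcases mem_insert.1 hz with rfl | hz
      · exact mem_insert_of_mem hp
      · rcases mem_insert.1 hz with rfl | hz
        · exact mem_insert_self _ _
        · exact mem_insert_of_mem (mem_of_mem_erase hz)
    · rintro y hy rfl
      exact hvg
  · obtain ⟨hp1, hp2, hp3, hp4⟩ := P_first h hg hvg hW hgW hp hpg hpf
    have hps : p ≠ s := (hW p hp).2.2.2
    have hspg := hpf g hgW (Ne.symm hpg)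
    have hpt : p ≠ t := by
      rintro rfl
      have h2 := htl g hgW (Ne.symm hpg)
      have h3 : cross s g p = - cross s p g := by simp only [cross]; ring
      linarith
    have hp3' : ∀ q ∈ W.erase p, 0 < cross p s q := fun q hq =>
      hp3 q (mem_of_mem_erase hq) (ne_of_mem_erase hq)
    have hp0 : ∀ a ∈ W.erase p, ∀ b ∈ W.erase p, a ≠ b → cross p a b ≠ 0 := by
      intro a ha b hb hab
      exact cross_ne_zero_of_genPos gp (hW p hp).1 (hW a (mem_of_mem_erase ha)).1
        (hW b (mem_of_mem_erase hb)).1 (ne_of_mem_erase ha).symm hab (ne_of_mem_erase hb).symm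
    have hpZ : p ∈ Z := by
      rw [hZ, mem_filter]
      exact ⟨hp, fun hX => hX.elim hp2 hpt⟩
    have hZ1 : 1 ≤ Z.card := card_pos.2 ⟨p, hpZ⟩
    -- the two parts
    obtain ⟨Q, R, hQR, hQX, hord, hR⟩ : ∃ Q R : Finset (ℝ × ℝ), Q ∪ R = W.erase p ∧
        (∀ q ∈ Q, Vtx S q ∨ q = t) ∧ (∀ a ∈ Q, ∀ b ∈ R, cross p a b < 0) ∧
        Chn R p s ((Z.card + 1) / 2 - 1) (fun _ => True) := by
      by_cases hall : ∀ q ∈ W.erase p, Vtx S q ∨ q = t
      · refine ⟨W.erase p, ∅, union_empty _, hall, ?_, ?_⟩
        · intro a _ b hb
          exact absurd hb (notMem_empty b)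
        · exact (chn_nil hps _).mono (Nat.zero_le _) (fun _ _ h => h)
      · push Not at hall
        have hex : ∃ y ∈ W.erase p, ¬ (Vtx S y ∨ y = t) := by
          obtain ⟨y, hy, h1, h2⟩ := hall
          exact ⟨y, hy, fun hX => hX.elim h1 h2⟩
        obtain ⟨y, hy, hyX, hyf⟩ := rot_split hp3' hp0 (fun q => Vtx S q ∨ q = t) hex
        have hyW := mem_of_mem_erase hy
        refine ⟨(W.erase p).filter (fun q => cross p q y < 0),
          (W.erase p).filter (fun q => ¬ cross p q y < 0), ?_, ?_, ?_, ?_⟩
        · exact filter_union_filter_not_eq _ _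
        · intro q hq
          rw [mem_filter] at hq
          exact hyf q hq.1 hq.2
        · intro a ha b hb
          rw [mem_filter] at ha hb
          by_cases hby : b = y
          · rw [hby]; exact ha.2
          · have h1 : cross p y b < 0 := by
              have h2 := hp0 b hb.1 y hy hby
              have h3 : cross p y b = - cross p b y := by simp only [cross]; ring
              have h4 : 0 < cross p b y := lt_of_le_of_ne (not_lt.1 hb.2) (Ne.symm h2)
              linarith
            exact rot_trans (hp3' a ha.1) (hp3' y hy) (hp3' b hb.1) ha.2 h1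
        · set R := (W.erase p).filter (fun q => ¬ cross p q y < 0) with hRdef
          have hyR : y ∈ R := by
            rw [hRdef, mem_filter]
            have : cross p y y = 0 := by simp only [cross]; ring
            exact ⟨hy, by rw [this]; exact lt_irrefl 0⟩
          have hRW : ∀ q ∈ R, q ∈ W ∧ q ≠ p := fun q hq =>
            ⟨mem_of_mem_erase (mem_filter.1 hq).1, ne_of_mem_erase (mem_filter.1 hq).1⟩
          have hRs : ∀ q ∈ R, 0 < cross p s q := fun q hq => hp3' q (mem_filter.1 hq).1
          have hyfirst : ∀ q ∈ R, q ≠ y → cross p y q < 0 := by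
            intro q hq hqy
            have h2 := hp0 q (mem_filter.1 hq).1 y hy hqy
            have h3 : cross p y q = - cross p q y := by simp only [cross]; ring
            have h4 : 0 < cross p q y := lt_of_le_of_ne (not_lt.1 (mem_filter.1 hq).2) (Ne.symm h2)
            linarith
          have hI : Inst (insert p (insert s R)) p s :=
            sub_inst gp (fun q hq => (hW q (hRW q hq).1).1) (hW p hp).1 h.mem hps hRs
          have hV := sub_vtx hps hRs
          have hVy := sub_vtx_first hRs hyR hyfirst
          have hT := lemG hI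
          have hC := (chn_iff_TP (fun h1 => (hRW p h1).2 rfl) (fun h1 => hsW (hRW s h1).1) hps).1 hT
          refine hC.mono ?_ (fun _ _ h => h)
          have hcard : inN (insert p (insert s R)) + 2 ≤ Z.card := by
            have hyZ : y ∈ Z.erase p := by
              rw [mem_erase, hZ, mem_filter]
              exact ⟨ne_of_mem_erase hy, hyW, hyX⟩
            have h1 : inN (insert p (insert s R)) ≤ ((Z.erase p).erase y).card := by
              unfold inN
              refine card_le_card ?_
              intro x hx
              rw [mem_filter] at hx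
              obtain ⟨hx1, hx2⟩ := hx
              have hxp : x ≠ p := by rintro rfl; exact hx2 hV.1
              have hxs : x ≠ s := by rintro rfl; exact hx2 hV.2
              have hxy : x ≠ y := by rintro rfl; exact hx2 hVy
              have hxR : x ∈ R := by
                rcases mem_insert.1 hx1 with h4 | h4
                · exact absurd h4 hxp
                · rcases mem_insert.1 h4 with h5 | h5
                  · exact absurd h5 hxs
                  · exact h5
              have hxW := (hRW x hxR).1
              rw [mem_erase, mem_erase, hZ, mem_filter]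
              refine ⟨hxy, hxp, hxW, fun hX => hx2 ((hXV x hxW hX).mono ?_ hx1)⟩
              intro z hz
              rcases mem_insert.1 hz with rfl | hz
              · exact mem_insert_of_mem hp
              · rcases mem_insert.1 hz with rfl | hz
                · exact mem_insert_self _ _
                · exact mem_insert_of_mem (hRW z hz).1
            rw [card_erase_of_mem hyZ, card_erase_of_mem hpZ] at h1
            have h2 : 0 < (Z.erase p).card := card_pos.2 ⟨y, hyZ⟩
            rw [card_erase_of_mem hpZ] at h2
            omega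
          omega
    have hQW : ∀ q ∈ Q, q ∈ W.erase p := fun q hq => hQR ▸ mem_union_left R hq
    have hRW : ∀ q ∈ R, q ∈ W.erase p := fun q hq => hQR ▸ mem_union_right Q hq
    have hgp : cross v g p < 0 := hg.lft p (hW p hp).1 (hW p hp).2.1 hpg
    have hvp : v ≠ p := fun e => (hW p hp).2.1 e.symm
    have hfirst : Chn Q v p 0 (fun y => y = g) := by
      rcases Q.eq_empty_or_nonempty with hQ | hQ
      · rw [hQ]
        exact chn_nil hvp _
      · obtain ⟨x, hx, hxf⟩ := rot_first (a := p) (b := s) (fun q hq => hp3' q (hQW q hq))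
          (fun a ha b hb => hp0 a (hQW a ha) b (hQW b hb)) hQ
        have hxg : x = g := by
          refine P_q1 h hg hvg hW hgW hp hpg hpf ht htl (mem_of_mem_erase (hQW x hx))
            (ne_of_mem_erase (hQW x hx)) ?_ (hQX x hx)
          intro q hq hqp hqx
          have hq' : q ∈ W.erase p := mem_erase.2 ⟨hqp, hq⟩
          rw [← hQR, mem_union] at hq'
          rcases hq' with hq' | hq'
          · exact hxf q hq' hqx
          · exact hord x hx q hq'
        subst hxg
        refine fan (b := s) (fun q hq => hp3' q (hQW q hq))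
          (fun a ha b hb => hp0 a (hQW a ha) b (hQW b hb)) ?_ hx hxf ?_ hgp
        · intro q hq
          refine (hXV q (mem_of_mem_erase (hQW q hq)) (hQX q hq)).mono ?_ (mem_insert_of_mem hq)
          intro z hz
          rcases mem_insert.1 hz with rfl | hz
          · exact mem_insert_of_mem hp
          · exact mem_insert_of_mem (mem_of_mem_erase (hQW z hz))
        · intro q hq hqx
          have h1 := hW q (mem_of_mem_erase (hQW q hq))
          exact hg.lft q h1.1 h1.2.1 hqx
    have hG := Chn.glue hfirst hR
      (by
        rintro y _ rfl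
        have h3 : cross v p y = - cross v y p := by simp only [cross]; ring
        linarith)
      (fun q hq => hp3' q (hQW q hq)) (fun q hq => hp3' q (hRW q hq)) hp4 hord
    rw [hQR, insert_erase hp] at hG
    refine hG.mono (by omega) ?_
    rintro y _ (rfl | rfl)
    · exact hvg
    · exact hp1

end Pool.Agent.Lib.MP_9bb24e_co
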