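import Mathlib.Data.List.Basic
import Mathlib.Data.List.Count
import Mathlib.Tactic

/-!
# The word lemma

A word in the flags `true` (hull vertex) and `false` (inner point) either has a prefix, ending at an
odd inner point, which carries enough hull points, or has enough hull points in total.
-/

namespace Pool.Agent.Lib.MP_9bb24e_co

/-- **Word lemma.** -/
theorem word_lemma {A : Type*} (f : A → Bool) (l : List A) :
    (∃ (l1 : List A) (p : A) (l2 : List A) (a : ℕ), l = l1 ++ p :: l2 ∧ f p = false ∧
      l1.countP (fun x => !f x) = 2 * a ∧
      (a + 1 ≤ l1.countP f ∨ (a ≤ l1.countP f ∧ ∃ q l3, l2 = q :: l3 ∧ f q = false)))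
    ∨ 5 * ((l.countP (fun x => !f x) + 2) / 2) ≤
        2 * l.countP (fun x => !f x) + l.countP f + 5 := by
  have key : (∃ (l1 : List A) (p : A) (l2 : List A) (a : ℕ), l = l1 ++ p :: l2 ∧ f p = false ∧
      l1.countP (fun x => !f x) = 2 * a ∧
      (a + 1 ≤ l1.countP f ∨ (a ≤ l1.countP f ∧ ∃ q l3, l2 = q :: l3 ∧ f q = false)))
      ∨ ((∀ a, l.countP (fun x => !f x) = 2 * a → a ≤ l.countP f) ∧
        (∀ a, l.countP (fun x => !f x) = 2 * a + 1 → a ≤ l.countP f ∧
          (l.countP f = a → ∃ (l1 : List A) (p : A), l = l1 ++ [p] ∧ f p = false))) := by
    induction l using List.reverseRecOn with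
    | nil => right; simp
    | append_singleton l x ih =>
      rcases ih with ⟨l1, p, l2, a, hl, hp, hz, hcase⟩ | ⟨hev, hodd⟩
      · left
        refine ⟨l1, p, l2 ++ [x], a, by simp [hl], hp, hz, ?_⟩
        rcases hcase with h | ⟨h, q, l3, hq, hfq⟩
        · exact Or.inl h
        · exact Or.inr ⟨h, q, l3 ++ [x], by simp [hq], hfq⟩
      · have hzx : (l ++ [x]).countP (fun x => !f x) =
            l.countP (fun x => !f x) + (if f x = true then 0 else 1) := by
          rw [List.countP_append]; cases hfx : f x <;> simp [hfx]
        have hex : (l ++ [x]).countP f = l.countP f + (if f x = true then 1 else 0) := by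
          rw [List.countP_append]; cases hfx : f x <;> simp [hfx]
        cases hfx : f x with
        | true =>
          right
          simp only [hfx, if_true] at hzx hex
          refine ⟨fun a ha => ?_, fun a ha => ?_⟩
          · have := hev a (by omega)
            omega
          · have := (hodd a (by omega)).1
            exact ⟨by omega, fun h => by omega⟩
        | false =>
          simp only [hfx, Bool.false_eq_true, if_false] at hzx hex
          rcases Nat.even_or_odd' (l.countP (fun x => !f x)) with ⟨a, ha | ha⟩
          · by_cases hea : a + 1 ≤ l.countP f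
            · left
              exact ⟨l, x, [], a, rfl, hfx, ha, Or.inl hea⟩
            · right
              have h0 := hev a ha
              refine ⟨fun b hb => by omega, fun b hb => ⟨by omega, fun _ => ⟨l, x, rfl, hfx⟩⟩⟩
          · have h0 := hodd a ha
            by_cases hea : l.countP f = a
            · obtain ⟨l1, p, hl, hp⟩ := h0.2 hea
              left
              have h1 : l.countP (fun x => !f x) = l1.countP (fun x => !f x) + 1 := by
                rw [hl, List.countP_append]; simp [hp]
              have h2 : l.countP f = l1.countP f := by
                rw [hl, List.countP_append]; simp [hp]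
              refine ⟨l1, p, [x], a, by simp [hl], hp, by omega, Or.inr ⟨by omega, x, [], rfl, hfx⟩⟩
            · right
              refine ⟨fun b hb => by omega, fun b hb => by omega⟩
  rcases key with h | ⟨hev, hodd⟩
  · exact Or.inl h
  · right
    rcases Nat.even_or_odd' (l.countP (fun x => !f x)) with ⟨a, ha | ha⟩
    · have := hev a ha
      omega
    · have := (hodd a ha).1
      omega

end Pool.Agent.Lib.MP_9bb24e_co
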