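import Pool.Agent.Lib.MP_9bb24e_co.V.LemP
import Pool.Agent.Lib.MP_9bb24e_co.V.Word
import Pool.Agent.Lib.MP_9bb24e_co.U.Fixed
import Pool.Agent.Lib.MP_9bb24e_co.U.Small

/-!
# Module Main: `5 * T + h ≤ 2 * n + 1`

Strong induction on `S.card`. `S.card = 2`: `r = 0`, `hullN S ≤ 2`. `s` lowest, `T = S` without
`v, w, s`.

(a) `Vtx S s`: as in module LemG; `hullN S ≤ hullN (S.erase v) + 1` (`Vtx.mono`).

(b) not `Vtx S s`; `g` from `Low.exists_lft`; list `l` of `T` from `rot_list`; `word_lemma` with
`f x = decide (Vtx S x)`.
Second alternative: `lemG`; `inN S = l.countP (!f) + 1` (the points of `T` that are not `Vtx`, and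
`s`), `hullN S = l.countP f + 2`, `S.card = l.length + 3`.
First alternative: `l = l1 ++ p :: l2`, `W = l1.toFinset ∪ {p}`, `t = p`, `U = l2.toFinset`. If
`l1.countP f = 0` then `a = 0`, so `l1` has no element with `f = false` either, `l1 = []`, `W = {p}`:
`chn_one` (`cross v p s = - cross v s p < 0`: `p` is the first element; `g ∈ T`, so `p = g`, excluded by
`f p = false` and `Vtx S g`, or `cross s p g < 0` and `Low.before`). Otherwise `g ∈ W`: some `x ∈ l1` is
`Vtx S`; if `g ∉ l1` then `cross s x g < 0` (`g` is later in the list; `x ≠ g`), contradiction to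
`Low.before`. `lemP`: the filter has card `l1.countP (!f) = 2 * a`, so at most `(2 * a + 1) / 2 = a` left
turns. Second part by induction: instance `insert s (insert w U)`: `5 r + hullN' ≤ 2 (|U| + 2) + 1`,
`hullN' ≥ 2 + l2.countP f + δ` where `δ = 1` if `l2 = q :: l3` and `f q = false` (`sub_vtx`,
`Vtx.mono`, `sub_vtx_first`). `Chn.glue`, `chn_iff_TP`; arithmetic:
`5 (a + r + 1) + hullN S ≤ 2 S.card + 1` with `hullN S = 2 + l1.countP f + l2.countP f`,
`S.card = 3 + (l1.countP f + 2 a) + 1 + |U|`, needs `a + 1 ≤ l1.countP f + δ`.
-/

set_option autoImplicit false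

namespace Pool.Agent.Lib.MP_9bb24e_co

open Finset

theorem Main_cnt {l : List (ℝ × ℝ)} (hl : l.Nodup) {T : Finset (ℝ × ℝ)} (hT : ∀ x, x ∈ l ↔ x ∈ T)
    (f : ℝ × ℝ → Bool) : l.countP f = (T.filter fun x => f x = true).card := by
  classical
  have h1 : T.filter (fun x => f x = true) = (l.filter f).toFinset := by
    ext x
    rw [mem_filter, List.mem_toFinset, List.mem_filter, hT]
  rw [h1, List.toFinset_card_of_nodup (hl.filter f), List.countP_eq_length_filter]

open Classical in
/-- Hull vertices of an instance whose lowest point is not one. -/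
theorem Main_counts {S T : Finset (ℝ × ℝ)} {v w s : ℝ × ℝ} (h : Low S v w s) (hn : ¬ Vtx S s)
    (hT : ∀ q, q ∈ T ↔ q ∈ S ∧ q ≠ v ∧ q ≠ w ∧ q ≠ s) :
    hullN S = (T.filter fun q => Vtx S q).card + 2 ∧
      inN S = (T.filter fun q => ¬ Vtx S q).card + 1 ∧ S.card = T.card + 3 ∧
      S = insert v (insert w (insert s T)) := by
  have hvw := vtx_of_edge_pos h.inst.v_mem h.inst.w_mem h.inst.ne h.inst.left
  have hvT : v ∉ T := fun hv => ((hT v).1 hv).2.1 rfl
  have hwT : w ∉ T := fun hw => ((hT w).1 hw).2.2.1 rfl
  have hsT : s ∉ T := fun hs => ((hT s).1 hs).2.2.2 rfl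
  have hS : S = insert v (insert w (insert s T)) := by
    ext x
    rw [mem_insert, mem_insert, mem_insert, hT]
    constructor
    · intro hx
      by_cases h1 : x = v
      · exact Or.inl h1
      · by_cases h2 : x = w
        · exact Or.inr (Or.inl h2)
        · by_cases h3 : x = s
          · exact Or.inr (Or.inr (Or.inl h3))
          · exact Or.inr (Or.inr (Or.inr ⟨hx, h1, h2, h3⟩))
    · rintro (rfl | rfl | rfl | hx)
      · exact h.inst.v_mem
      · exact h.inst.w_mem
      · exact h.mem
      · exact hx.1
  refine ⟨?_, ?_, ?_, hS⟩
  · have h1 : S.filter (fun q => Vtx S q) = insert v (insert w (T.filter fun q => Vtx S q)) := by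
      ext x
      rw [mem_filter, mem_insert, mem_insert, mem_filter, hT]
      constructor
      · rintro ⟨hx, hx2⟩
        by_cases h1 : x = v
        · exact Or.inl h1
        · by_cases h2 : x = w
          · exact Or.inr (Or.inl h2)
          · have h3 : x ≠ s := by rintro rfl; exact hn hx2
            exact Or.inr (Or.inr ⟨⟨hx, h1, h2, h3⟩, hx2⟩)
      · rintro (rfl | rfl | hx)
        · exact ⟨h.inst.v_mem, hvw.1⟩
        · exact ⟨h.inst.w_mem, hvw.2⟩
        · exact ⟨hx.1.1, hx.2⟩
    unfold hullN
    rw [h1, card_insert_of_notMem, card_insert_of_notMem]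
    · intro hx
      exact hwT (mem_filter.1 hx).1
    · intro hx
      rcases mem_insert.1 hx with hx | hx
      · exact h.inst.ne hx
      · exact hvT (mem_filter.1 hx).1
  · have h1 : S.filter (fun q => ¬ Vtx S q) = insert s (T.filter fun q => ¬ Vtx S q) := by
      ext x
      rw [mem_filter, mem_insert, mem_filter, hT]
      constructor
      · rintro ⟨hx, hx2⟩
        by_cases h3 : x = s
        · exact Or.inl h3
        · have h1 : x ≠ v := by rintro rfl; exact hx2 hvw.1
          have h2 : x ≠ w := by rintro rfl; exact hx2 hvw.2
          exact Or.inr ⟨⟨hx, h1, h2, h3⟩, hx2⟩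
      · rintro (rfl | hx)
        · exact ⟨h.mem, hn⟩
        · exact ⟨hx.1.1, hx.2⟩
    unfold inN
    rw [h1, card_insert_of_notMem]
    intro hx
    exact hsT (mem_filter.1 hx).1
  · conv_lhs => rw [hS]
    rw [card_insert_of_notMem, card_insert_of_notMem, card_insert_of_notMem hsT]
    · intro hx
      rcases mem_insert.1 hx with hx | hx
      · exact h.new hx.symm
      · exact hwT hx
    · intro hx
      rcases mem_insert.1 hx with hx | hx
      · exact h.inst.ne hx
      · rcases mem_insert.1 hx with hx | hx
        · exact h.nev hx.symm
        · exact hvT hx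

theorem Main_aux (n : ℕ) : ∀ (S : Finset (ℝ × ℝ)) (v w : ℝ × ℝ), Inst S v w → S.card = n →
    ∃ r, TP S v w r ∧ 5 * r + hullN S ≤ 2 * S.card + 1 := by
  classical
  induction n using Nat.strong_induction_on with
  | _ n ih =>
    intro S v w h hn
    have gp := h.gp
    rcases Nat.lt_or_ge S.card 3 with h3 | h3
    · have h2 : S.card = 2 := by have := h.two_le; omega
      refine ⟨0, TP_two h h2, ?_⟩
      have h4 : hullN S ≤ S.card := by unfold hullN; exact card_filter_le _ _
      omega
    obtain ⟨s, hs⟩ := exists_low h h3
    obtain ⟨T, hT⟩ : ∃ T : Finset (ℝ × ℝ), ∀ q, q ∈ T ↔ q ∈ S ∧ q ≠ v ∧ q ≠ w ∧ q ≠ s := by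
      refine ⟨((S.erase v).erase w).erase s, fun q => ?_⟩
      rw [mem_erase, mem_erase, mem_erase]
      tauto
    have hTs : ∀ q ∈ T, 0 < cross s w q := fun q hq =>
      hs.low q ((hT q).1 hq).1 ((hT q).1 hq).2.2.2 ((hT q).1 hq).2.1 ((hT q).1 hq).2.2.1
    have hsw := hs.new
    have hswv := hs.cross_v
    by_cases he : Vtx S s
    · -- the lowest point is a hull vertex
      have hr := hs.vtx_right he
      have hS' : insert s (insert w T) = S.erase v := by
        ext x
        rw [mem_insert, mem_insert, mem_erase, hT]
        constructor
        · rintro (rfl | rfl | hx)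
          · exact ⟨hs.nev, hs.mem⟩
          · exact ⟨h.ne.symm, h.w_mem⟩
          · exact ⟨hx.2.1, hx.1⟩
        · rintro ⟨h1, h2⟩
          by_cases h3 : x = s
          · exact Or.inl h3
          · by_cases h4 : x = w
            · exact Or.inr (Or.inl h4)
            · exact Or.inr (Or.inr ⟨h2, h1, h4, h3⟩)
      have hI : Inst (insert s (insert w T)) s w :=
        sub_inst gp (fun q hq => ((hT q).1 hq).1) hs.mem h.w_mem hsw hTs
      have hc : (insert s (insert w T)).card = S.card - 1 := by
        rw [hS', card_erase_of_mem h.v_mem]
      obtain ⟨r, hr1, hr2⟩ := ih _ (by omega) _ s w hI rfl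
      refine ⟨r, ?_, ?_⟩
      · have hC := (chn_iff_TP (fun h1 => ((hT s).1 h1).2.2.2 rfl)
          (fun h1 => ((hT w).1 h1).2.2.1 rfl) hsw).1 hr1
        have hC2 := hC.prepend (v := v) (hr w h.w_mem h.ne.symm hsw.symm)
          (fun q hq => hr q ((hT q).1 hq).1 ((hT q).1 hq).2.1 ((hT q).1 hq).2.2.2)
        have hC3 := (chn_iff_TP (a := v) (b := w) (R := insert s T) ?_ ?_ h.ne).2
          (hC2.mono le_rfl (fun _ _ _ => trivial))
        · have hS2 : insert v (insert w (insert s T)) = S := by
            ext x
            rw [mem_insert, mem_insert, mem_insert, hT]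
            constructor
            · rintro (rfl | rfl | rfl | hx)
              · exact h.v_mem
              · exact h.w_mem
              · exact hs.mem
              · exact hx.1
            · intro hx
              by_cases h1 : x = v
              · exact Or.inl h1
              · by_cases h2 : x = w
                · exact Or.inr (Or.inl h2)
                · by_cases h3 : x = s
                  · exact Or.inr (Or.inr (Or.inl h3))
                  · exact Or.inr (Or.inr (Or.inr ⟨hx, h1, h2, h3⟩))
          rw [hS2] at hC3
          exact hC3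
        · intro hx
          rcases mem_insert.1 hx with hx | hx
          · exact hs.nev hx.symm
          · exact ((hT v).1 hx).2.1 rfl
        · intro hx
          rcases mem_insert.1 hx with hx | hx
          · exact hsw hx.symm
          · exact ((hT w).1 hx).2.2.1 rfl
      · have h5 : hullN S ≤ hullN (insert s (insert w T)) + 1 := by
          unfold hullN
          rw [hS']
          refine (card_le_card (t := insert v ((S.erase v).filter fun p => Vtx (S.erase v) p)) ?_).trans
            (card_insert_le _ _)
          intro x hx
          rw [mem_filter] at hx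
          by_cases hxv : x = v
          · rw [hxv]; exact mem_insert_self _ _
          · refine mem_insert_of_mem (mem_filter.2 ⟨mem_erase.2 ⟨hxv, hx.1⟩, ?_⟩)
            exact hx.2.mono (erase_subset _ _) (mem_erase.2 ⟨hxv, hx.1⟩)
        omega
    · obtain ⟨hc1, hc2, hc3, hSe⟩ := Main_counts hs he hT
      obtain ⟨g, hg, hgE, hvg⟩ := hs.exists_lft he
      have hgT : g ∈ T := (hT g).2 ⟨hg.mem, hg.nev, hg.new, hg.nes⟩
      have hT0 : ∀ p ∈ T, ∀ q ∈ T, p ≠ q → cross s p q ≠ 0 := fun p hp q hq hpq =>
        cross_ne_zero_of_genPos gp hs.mem ((hT p).1 hp).1 ((hT q).1 hq).1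
          ((hT p).1 hp).2.2.2.symm hpq ((hT q).1 hq).2.2.2.symm
      obtain ⟨l, hln, hlm, hlp⟩ := rot_list hTs hT0
      set f : ℝ × ℝ → Bool := fun x => decide (Vtx S x) with hf
      have hE : l.countP f = (T.filter fun q => Vtx S q).card := by
        rw [Main_cnt hln hlm f]
        congr 1
        refine filter_congr (fun x _ => ?_)
        simp [hf]
      have hZ : l.countP (fun x => !f x) = (T.filter fun q => ¬ Vtx S q).card := by
        rw [Main_cnt hln hlm (fun x => !f x)]
        congr 1
        refine filter_congr (fun x _ => ?_)
        simp [hf]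
      have hlen : T.card = l.countP f + l.countP (fun x => !f x) := by
        rw [hE, hZ]
        exact (card_filter_add_card_filter_not (s := T) (fun q => Vtx S q)).symm
      rcases word_lemma f l with ⟨l1, p, l2, a, hl, hfp, hz1, hcase⟩ | hG
      · -- prefix
        subst hl
        rw [List.pairwise_append, List.pairwise_cons] at hlp
        obtain ⟨hp1, ⟨hp2, hp3⟩, hp4⟩ := hlp
        rw [List.nodup_append, List.nodup_cons] at hln
        obtain ⟨hn1, ⟨hn2, hn3⟩, hn4⟩ := hln
        have hmem1 : ∀ x ∈ l1, x ∈ T := fun x hx => (hlm x).1 (List.mem_append_left _ hx)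
        have hmemp : p ∈ T := (hlm p).1 (List.mem_append_right _ List.mem_cons_self)
        have hmem2 : ∀ x ∈ l2, x ∈ T := fun x hx =>
          (hlm x).1 (List.mem_append_right _ (List.mem_cons_of_mem _ hx))
        have hpl1 : p ∉ l1 := fun hx => hn4 p hx p List.mem_cons_self rfl
        have hpV : ¬ Vtx S p := by simpa [hf] using hfp
        set W : Finset (ℝ × ℝ) := insert p l1.toFinset with hWdef
        set U : Finset (ℝ × ℝ) := l2.toFinset with hUdef
        have hWm : ∀ x, x ∈ W ↔ x = p ∨ x ∈ l1 := by
          intro x; rw [hWdef, mem_insert, List.mem_toFinset]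
        have hUm : ∀ x, x ∈ U ↔ x ∈ l2 := by intro x; rw [hUdef, List.mem_toFinset]
        have hWT : ∀ x ∈ W, x ∈ T := by
          intro x hx
          rcases (hWm x).1 hx with rfl | hx
          · exact hmemp
          · exact hmem1 x hx
        have hUT : ∀ x ∈ U, x ∈ T := fun x hx => hmem2 x ((hUm x).1 hx)
        have hord : ∀ x ∈ W, ∀ y ∈ U, cross s x y < 0 := by
          intro x hx y hy
          rcases (hWm x).1 hx with rfl | hx
          · exact hp2 y ((hUm y).1 hy)
          · exact hp4 x hx y (List.mem_cons_of_mem _ ((hUm y).1 hy))
        have hWU : insert s (W ∪ U) = insert s T := by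
          congr 1
          ext x
          rw [mem_union, hWm, hUm, ← hlm, List.mem_append, List.mem_cons]
          tauto
        -- first part
        have hfirst : Chn W v s a (fun y => 0 < cross v s y) := by
          by_cases hg1 : g ∈ l1
          · have hP := lemP hs hg hvg (W := W) (t := p) (fun q hq => (hT q).1 (hWT q hq))
              ((hWm g).2 (Or.inr hg1)) hgE ((hWm p).2 (Or.inl rfl)) (by
                intro q hq hqp
                rcases (hWm q).1 hq with h1 | h1
                · exact absurd h1 hqp
                · exact hp4 q h1 p List.mem_cons_self)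
            refine hP.mono ?_ (fun _ _ h => h)
            have hcard : (W.filter fun q => ¬ (Vtx S q ∨ q = p)).card = 2 * a := by
              rw [← hz1, Main_cnt (T := l1.toFinset) hn1 (fun x => List.mem_toFinset.symm)]
              congr 1
              ext x
              rw [mem_filter, mem_filter, hWm, List.mem_toFinset]
              constructor
              · rintro ⟨h1, h2⟩
                push Not at h2
                rcases h1 with h1 | h1
                · exact absurd h1 h2.2
                · exact ⟨h1, by simp [hf, h2.1]⟩
              · rintro ⟨h1, h2⟩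
                refine ⟨Or.inr h1, ?_⟩
                rintro (h3 | rfl)
                · simp [hf, h3] at h2
                · exact hpl1 h1
            omega
          · have hgp : g ≠ p := by rintro rfl; exact hpV hgE
            have hg2 : g ∈ l2 := by
              have := (hlm g).2 hgT
              rw [List.mem_append, List.mem_cons] at this
              tauto
            have hno : ∀ x ∈ l1, f x = false := by
              intro x hx
              have h1 := (hT x).1 (hmem1 x hx)
              have h2 := hs.before hg hvg h1.1 h1.2.1 h1.2.2.1 h1.2.2.2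
                (hp4 x hx g (List.mem_cons_of_mem _ hg2))
              simpa [hf] using h2.2
            have h0 : l1.countP f = 0 := by
              rw [List.countP_eq_zero]
              intro x hx
              rw [hno x hx]
              exact Bool.false_ne_true
            have ha : a = 0 := by
              rcases hcase with h1 | ⟨h1, _⟩
              · omega
              · omega
            have hl1 : l1 = [] := by
              rw [List.eq_nil_iff_forall_not_mem]
              intro x hx
              rw [ha, Nat.mul_zero, List.countP_eq_zero] at hz1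
              exact hz1 x hx (by rw [hno x hx]; rfl)
            have h1 := (hT p).1 hmemp
            have h2 := hs.before hg hvg h1.1 h1.2.1 h1.2.2.1 h1.2.2.2 (hp2 g hg2)
            have hWp : W = {p} := by
              rw [hWdef, hl1]; rfl
            rw [hWp, ha]
            refine (chn_one (v := v) (s := s) (p := p) ?_).mono le_rfl ?_
            · have h3 : cross v p s = - cross v s p := by simp only [cross]; ring
              linarith [h2.1]
            · rintro y _ rfl
              exact h2.1
        -- second part
        have hUs : ∀ q ∈ U, 0 < cross s w q := fun q hq => hTs q (hUT q hq)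
        have hI : Inst (insert s (insert w U)) s w :=
          sub_inst gp (fun q hq => ((hT q).1 (hUT q hq)).1) hs.mem h.w_mem hsw hUs
        have hsU : s ∉ insert w U := by
          intro hx
          rcases mem_insert.1 hx with hx | hx
          · exact hsw hx
          · exact ((hT s).1 (hUT s hx)).2.2.2 rfl
        have hwU : w ∉ U := fun hx => ((hT w).1 (hUT w hx)).2.2.1 rfl
        have hcU : (insert s (insert w U)).card = l2.length + 2 := by
          rw [card_insert_of_notMem hsU, card_insert_of_notMem hwU, hUdef,
            List.toFinset_card_of_nodup hn3]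
        have hTl : T.card = l1.length + (l2.length + 1) := by
          have h1 : T = (l1 ++ p :: l2).toFinset := by
            ext x; rw [List.mem_toFinset, hlm]
          rw [h1, List.toFinset_card_of_nodup
            (List.nodup_append.2 ⟨hn1, List.nodup_cons.2 ⟨hn2, hn3⟩, hn4⟩), List.length_append,
            List.length_cons]
        obtain ⟨r, hr1, hr2⟩ := ih _ (by rw [hcU]; omega) _ s w hI rfl
        have hV := sub_vtx hsw hUs
        have hUV : ∀ x ∈ U, Vtx S x → Vtx (insert s (insert w U)) x := by
          intro x hx hxV
          refine hxV.mono ?_ (mem_insert_of_mem (mem_insert_of_mem hx))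
          intro z hz
          rcases mem_insert.1 hz with rfl | hz
          · exact hs.mem
          · rcases mem_insert.1 hz with rfl | hz
            · exact h.w_mem
            · exact ((hT z).1 (hUT z hz)).1
        have hcnt2 : l2.countP f = (U.filter fun q => Vtx S q).card := by
          rw [Main_cnt hn3 (fun x => (hUm x).symm) f]
          congr 1
          refine filter_congr (fun x _ => ?_)
          simp [hf]
        have hfw : w ∉ U.filter fun q => Vtx S q := fun hx => hwU (mem_filter.1 hx).1
        have hfs : s ∉ insert w (U.filter fun q => Vtx S q) := by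
          intro hx
          rcases mem_insert.1 hx with hx | hx
          · exact hsw hx
          · exact ((hT s).1 (hUT s (mem_filter.1 hx).1)).2.2.2 rfl
        have hbase : insert s (insert w (U.filter fun q => Vtx S q)) ⊆
            (insert s (insert w U)).filter fun q => Vtx (insert s (insert w U)) q := by
          intro x hx
          rcases mem_insert.1 hx with rfl | hx
          · exact mem_filter.2 ⟨mem_insert_self _ _, hV.1⟩
          · rcases mem_insert.1 hx with rfl | hx
            · exact mem_filter.2 ⟨mem_insert_of_mem (mem_insert_self _ _), hV.2⟩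
            · have h1 := mem_filter.1 hx
              exact mem_filter.2 ⟨mem_insert_of_mem (mem_insert_of_mem h1.1), hUV x h1.1 h1.2⟩
        have hhull : a + 1 + l2.countP f + 2 ≤ l1.countP f + hullN (insert s (insert w U)) := by
          rcases hcase with h1 | ⟨h1, q, l3, hq, hfq⟩
          · have h2 := card_le_card hbase
            rw [card_insert_of_notMem hfs, card_insert_of_notMem hfw, ← hcnt2] at h2
            unfold hullN
            omega
          · have hqV : ¬ Vtx S q := by simpa [hf] using hfq
            have hqU : q ∈ U := (hUm q).2 (by rw [hq]; exact List.mem_cons_self)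
            have hqf : Vtx (insert s (insert w U)) q := by
              refine sub_vtx_first hUs hqU ?_
              intro x hx hxq
              have hx' := (hUm x).1 hx
              rw [hq] at hx' hp3
              rw [List.pairwise_cons] at hp3
              rcases List.mem_cons.1 hx' with h4 | h4
              · exact absurd h4 hxq
              · exact hp3.1 x h4
            have hsub : insert q (insert s (insert w (U.filter fun q => Vtx S q))) ⊆
                (insert s (insert w U)).filter fun q => Vtx (insert s (insert w U)) q := by
              intro x hx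
              rcases mem_insert.1 hx with rfl | hx
              · exact mem_filter.2 ⟨mem_insert_of_mem (mem_insert_of_mem hqU), hqf⟩
              · exact hbase hx
            have h2 := card_le_card hsub
            have hqn : q ∉ insert s (insert w (U.filter fun q => Vtx S q)) := by
              intro hx
              have h5 := (hT q).1 (hUT q hqU)
              rcases mem_insert.1 hx with hx | hx
              · exact h5.2.2.2 hx
              · rcases mem_insert.1 hx with hx | hx
                · exact h5.2.2.1 hx
                · exact hqV (mem_filter.1 hx).2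
            rw [card_insert_of_notMem hqn, card_insert_of_notMem hfs, card_insert_of_notMem hfw,
              ← hcnt2] at h2
            unfold hullN
            omega
        have hC := (chn_iff_TP (fun hx => ((hT s).1 (hUT s hx)).2.2.2 rfl) hwU hsw).1 hr1
        have hGl := Chn.glue hfirst hC (fun y _ hy => hy) (fun q hq => hTs q (hWT q hq)) hUs
          hswv hord
        rw [hWU] at hGl
        refine ⟨a + r + 1, ?_, ?_⟩
        · have hC3 := (chn_iff_TP (a := v) (b := w) (R := insert s T) ?_ ?_ h.ne).2
            (hGl.mono le_rfl (fun _ _ _ => trivial))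
          · rw [← hSe] at hC3
            exact hC3
          · intro hx
            rcases mem_insert.1 hx with hx | hx
            · exact hs.nev hx.symm
            · exact ((hT v).1 hx).2.1 rfl
          · intro hx
            rcases mem_insert.1 hx with hx | hx
            · exact hsw hx.symm
            · exact ((hT w).1 hx).2.2.1 rfl
        · have h6 : (l1 ++ p :: l2).countP f = l1.countP f + l2.countP f := by
            rw [List.countP_append, List.countP_cons, hfp]
            simp
          have h7 : l1.length = l1.countP f + l1.countP (fun x => !f x) := by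
            rw [List.length_eq_countP_add_countP f (l := l1)]
            congr 1
            refine List.countP_congr (fun x _ => ?_)
            simp
          rw [hcU] at hr2
          omega
      · -- Lemma G
        refine ⟨(inN S + 1) / 2, lemG h, ?_⟩
        rw [hc1, hc2, hc3, ← hE, ← hZ, hlen]
        have h8 : (l.countP (fun x => !f x) + 1 + 1) / 2 = (l.countP (fun x => !f x) + 2) / 2 := rfl
        rw [h8]
        omega

theorem two_fifths {S : Finset (ℝ × ℝ)} {v w : ℝ × ℝ} (h : Inst S v w) :
    ∃ r, TP S v w r ∧ 5 * r + hullN S ≤ 2 * S.card + 1 := Main_aux S.card S v w h rfl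

/-- At least three hull vertices. -/
theorem three_le_hullN {S : Finset (ℝ × ℝ)} {v w : ℝ × ℝ} (h : Inst S v w) (h3 : 3 ≤ S.card) :
    3 ≤ hullN S := by
  classical
  obtain ⟨s, hs⟩ := exists_low h h3
  have hvw := vtx_of_edge_pos h.v_mem h.w_mem h.ne h.left
  obtain ⟨g, hgS, hgv, hgw, hgV⟩ : ∃ g ∈ S, g ≠ v ∧ g ≠ w ∧ Vtx S g := by
    by_cases he : Vtx S s
    · exact ⟨s, hs.mem, hs.nev, hs.new, he⟩
    · obtain ⟨g, hg, hgE, _⟩ := hs.exists_lft he
      exact ⟨g, hg.mem, hg.nev, hg.new, hgE⟩
  have h1 : ({v, w, g} : Finset (ℝ × ℝ)) ⊆ S.filter fun p => Vtx S p := by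
    intro x hx
    rw [mem_insert, mem_insert, mem_singleton] at hx
    rcases hx with rfl | rfl | rfl
    · exact mem_filter.2 ⟨h.v_mem, hvw.1⟩
    · exact mem_filter.2 ⟨h.w_mem, hvw.2⟩
    · exact mem_filter.2 ⟨hgS, hgV⟩
  have h2 := card_le_card h1
  have h4 : ({v, w, g} : Finset (ℝ × ℝ)).card = 3 :=
    Finset.card_eq_three.mpr ⟨v, w, g, h.ne, hgv.symm, hgw.symm, rfl⟩
  unfold hullN
  rw [← h4]
  exact h2

theorem rho_le_two_fifths (n : ℕ) (hn : 3 ≤ n) : 5 * rho n + 2 ≤ 2 * n := by
  have h1 : rho n ≤ (2 * n - 2) / 5 := by
    refine csSup_le' ?_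
    rintro k ⟨S, hS, hg, rfl⟩
    obtain ⟨v, w, hI⟩ := exists_inst S hg (by omega)
    obtain ⟨r, hr, hr2⟩ := two_fifths hI
    have h2 := reflexivity_le_of_TP hI (by omega) hr
    have h3 := three_le_hullN hI (by omega)
    rw [Nat.le_div_iff_mul_le (by norm_num)]
    have h4 : reflexivity S * 5 ≤ r * 5 := Nat.mul_le_mul_right 5 h2
    omega
  have h5 := (Nat.mul_le_mul_left 5 h1).trans (Nat.mul_div_le _ _)
  omega

end Pool.Agent.Lib.MP_9bb24e_co
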