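import Pool.Agent.Lib.MP_9bb24e_co.V.Defs
import Pool.Agent.Lib.MP_9bb24e_co.U.CutB

/-!
# Module Rot: rotation about a point

All points are strictly to the left of the line from `a` to `b`. They are ordered by the clockwise
rotation about `a` from the direction opposite to `b` to the direction of `b`: `p` is before `q` if
`cross a p q < 0`.

The real number `CutB_X a b p` describes this order: by `CutB_left`,
`CutB_X a b p < CutB_X a b q ↔ 0 < cross a q p`, and `cross a p q = - cross a q p` (ring). (`a ≠ b`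
because `cross a a q = 0`.) So transitivity, first and last elements (`Finset.exists_min_image`),
and the sorted list (sort by the number; `Finset.sort` needs an order, it is easier to take induction
on the card of `T`: remove the first element) follow.

* `rot_split`: take the first element `y` of `T.filter (fun q => ¬ X q)`; if `q ∈ T` is before `y` and
  `¬ X q` then `y = q` (but `cross a y y = 0`) or `cross a y q < 0`, contradiction.
* `sep_line`: choose a real number `c` with `CutB_X a b p < c` on `W` and `c < CutB_X a b q` on `U`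
  (finite sets; if both are nonempty the middle of the maximum and the minimum). The functional is
  `φ z = (z.1 - a.1) * (b.1 - a.1) + (z.2 - a.2) * (b.2 - a.2) - c * cross a b z`; it is `0` at `a`,
  `|b - a|^2 > 0` at `b`, negative on `W` and positive on `U` (divide by `cross a b z > 0`). It is
  affine in `z`; its linear part gives the two coefficients.
-/

set_option autoImplicit false

namespace Pool.Agent.Lib.MP_9bb24e_co

open Finset

private theorem rot_ne {a b q : ℝ × ℝ} (hq : 0 < cross a b q) : a ≠ b := by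
  rintro rfl
  simp [cross] at hq

private theorem rot_anti (a p q : ℝ × ℝ) : cross a p q = -cross a q p := by
  unfold cross
  ring

private theorem rot_iff {a b p q : ℝ × ℝ} (hp : 0 < cross a b p) (hq : 0 < cross a b q) :
    CutB_X a b p < CutB_X a b q ↔ cross a p q < 0 := by
  rw [CutB_left (rot_ne hp) hp hq, rot_anti a p q]
  constructor
  · intro h; linarith
  · intro h; linarith

theorem rot_trans {a b p q r : ℝ × ℝ} (hp : 0 < cross a b p) (hq : 0 < cross a b q)
    (hr : 0 < cross a b r) (h1 : cross a p q < 0) (h2 : cross a q r < 0) : cross a p r < 0 := by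
  rw [← rot_iff hp hr]
  exact ((rot_iff hp hq).2 h1).trans ((rot_iff hq hr).2 h2)

theorem rot_first {T : Finset (ℝ × ℝ)} {a b : ℝ × ℝ} (hT : ∀ q ∈ T, 0 < cross a b q)
    (hg : ∀ p ∈ T, ∀ q ∈ T, p ≠ q → cross a p q ≠ 0) (hne : T.Nonempty) :
    ∃ p ∈ T, ∀ q ∈ T, q ≠ p → cross a p q < 0 := by
  obtain ⟨p, hp, hmin⟩ := Finset.exists_min_image T (CutB_X a b) hne
  refine ⟨p, hp, fun q hq hqp => ?_⟩
  have h1 := hmin q hq
  have h2 : ¬ cross a q p < 0 := fun h => not_lt.2 h1 ((rot_iff (hT q hq) (hT p hp)).2 h)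
  have h3 := hg p hp q hq (Ne.symm hqp)
  rw [rot_anti a q p, not_lt] at h2
  exact lt_of_le_of_ne (by linarith) h3

theorem rot_last {T : Finset (ℝ × ℝ)} {a b : ℝ × ℝ} (hT : ∀ q ∈ T, 0 < cross a b q)
    (hg : ∀ p ∈ T, ∀ q ∈ T, p ≠ q → cross a p q ≠ 0) (hne : T.Nonempty) :
    ∃ p ∈ T, ∀ q ∈ T, q ≠ p → cross a q p < 0 := by
  obtain ⟨p, hp, hmax⟩ := Finset.exists_max_image T (CutB_X a b) hne
  refine ⟨p, hp, fun q hq hqp => ?_⟩
  have h1 := hmax q hq
  have h2 : ¬ cross a p q < 0 := fun h => not_lt.2 h1 ((rot_iff (hT p hp) (hT q hq)).2 h)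
  have h3 := hg q hq p hp hqp
  rw [rot_anti a p q, not_lt] at h2
  exact lt_of_le_of_ne (by linarith) h3

theorem rot_list {T : Finset (ℝ × ℝ)} {a b : ℝ × ℝ} (hT : ∀ q ∈ T, 0 < cross a b q)
    (hg : ∀ p ∈ T, ∀ q ∈ T, p ≠ q → cross a p q ≠ 0) :
    ∃ l : List (ℝ × ℝ), l.Nodup ∧ (∀ x, x ∈ l ↔ x ∈ T) ∧ l.Pairwise (fun p q => cross a p q < 0) := by
  classical
  suffices H : ∀ (n : ℕ) (T : Finset (ℝ × ℝ)), T.card = n → (∀ q ∈ T, 0 < cross a b q) →
      (∀ p ∈ T, ∀ q ∈ T, p ≠ q → cross a p q ≠ 0) →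
      ∃ l : List (ℝ × ℝ), l.Nodup ∧ (∀ x, x ∈ l ↔ x ∈ T) ∧
        l.Pairwise (fun p q => cross a p q < 0) from H _ T rfl hT hg
  intro n
  induction n with
  | zero =>
    intro T hc _ _
    rw [Finset.card_eq_zero] at hc
    subst hc
    exact ⟨[], List.nodup_nil, fun x => by simp, List.Pairwise.nil⟩
  | succ n ih =>
    intro T hc hT hg
    have hne : T.Nonempty := by
      rw [← Finset.card_pos, hc]
      exact Nat.succ_pos n
    obtain ⟨p, hp, hfirst⟩ := rot_first hT hg hne
    obtain ⟨l, hl1, hl2, hl3⟩ := ih (T.erase p)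
      (by rw [Finset.card_erase_of_mem hp, hc]; rfl)
      (fun q hq => hT q (Finset.mem_of_mem_erase hq))
      (fun x hx y hy => hg x (Finset.mem_of_mem_erase hx) y (Finset.mem_of_mem_erase hy))
    refine ⟨p :: l, ?_, ?_, ?_⟩
    · rw [List.nodup_cons]
      refine ⟨fun h => ?_, hl1⟩
      rw [hl2] at h
      exact Finset.notMem_erase p T h
    · intro x
      rw [List.mem_cons, hl2, Finset.mem_erase]
      constructor
      · rintro (rfl | h)
        · exact hp
        · exact h.2
      · intro h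
        by_cases hx : x = p
        · exact Or.inl hx
        · exact Or.inr ⟨hx, h⟩
    · rw [List.pairwise_cons]
      refine ⟨fun q hq => ?_, hl3⟩
      rw [hl2, Finset.mem_erase] at hq
      exact hfirst q hq.2 hq.1

/-- The first element without the property `X`. -/
theorem rot_split {T : Finset (ℝ × ℝ)} {a b : ℝ × ℝ} (hT : ∀ q ∈ T, 0 < cross a b q)
    (hg : ∀ p ∈ T, ∀ q ∈ T, p ≠ q → cross a p q ≠ 0) (X : ℝ × ℝ → Prop)
    (hex : ∃ y ∈ T, ¬ X y) : ∃ y ∈ T, ¬ X y ∧ ∀ q ∈ T, cross a q y < 0 → X q := by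
  classical
  obtain ⟨y₀, hy₀, hXy₀⟩ := hex
  obtain ⟨y, hy, hfirst⟩ := rot_first (T := T.filter (fun q => ¬ X q)) (a := a) (b := b)
    (fun q hq => hT q (Finset.mem_filter.1 hq).1)
    (fun p hp q hq => hg p (Finset.mem_filter.1 hp).1 q (Finset.mem_filter.1 hq).1)
    ⟨y₀, Finset.mem_filter.2 ⟨hy₀, hXy₀⟩⟩
  obtain ⟨hyT, hXy⟩ := Finset.mem_filter.1 hy
  refine ⟨y, hyT, hXy, fun q hq hlt => ?_⟩
  by_contra hXq
  have hne : q ≠ y := by
    rintro rfl
    have : cross a q q = 0 := by
      unfold cross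
      ring
    rw [this] at hlt
    exact lt_irrefl _ hlt
  have h1 := hfirst q (Finset.mem_filter.2 ⟨hq, hXq⟩) hne
  rw [rot_anti a q y] at hlt
  linarith

/-- A line through `a` separates the first part from the second part and `b`. -/
theorem sep_line {W U : Finset (ℝ × ℝ)} {a b : ℝ × ℝ} (hab : a ≠ b)
    (hW : ∀ p ∈ W, 0 < cross a b p) (hU : ∀ q ∈ U, 0 < cross a b q)
    (hord : ∀ p ∈ W, ∀ q ∈ U, cross a p q < 0) :
    ∃ α β : ℝ, (∀ p ∈ W, α * p.1 + β * p.2 < α * a.1 + β * a.2) ∧
      (∀ q ∈ U, α * a.1 + β * a.2 < α * q.1 + β * q.2) ∧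
      α * a.1 + β * a.2 < α * b.1 + β * b.2 := by
  classical
  obtain ⟨c, hc1, hc2⟩ := Order.exists_between_finsets (W.image (CutB_X a b))
    (U.image (CutB_X a b)) (by
      intro x hx y hy
      obtain ⟨p, hp, rfl⟩ := Finset.mem_image.1 hx
      obtain ⟨q, hq, rfl⟩ := Finset.mem_image.1 hy
      exact (rot_iff (hW p hp) (hU q hq)).2 (hord p hp q hq))
  refine ⟨(b.1 - a.1) + c * (b.2 - a.2), (b.2 - a.2) - c * (b.1 - a.1), ?_, ?_, ?_⟩
  · intro p hp
    have h1 := hc1 _ (Finset.mem_image_of_mem _ hp)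
    unfold CutB_X at h1
    rw [div_lt_iff₀ (hW p hp)] at h1
    unfold cross at h1
    nlinarith [h1]
  · intro q hq
    have h1 := hc2 _ (Finset.mem_image_of_mem _ hq)
    unfold CutB_X at h1
    rw [lt_div_iff₀ (hU q hq)] at h1
    unfold cross at h1
    nlinarith [h1]
  · have h1 := CutB_pos hab
    nlinarith [h1]

end Pool.Agent.Lib.MP_9bb24e_co
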